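import Pool.Agent.Lib.MP_7bc610_gt.Ht.Sweep

/-!
The choice of the evaluation point on the unit circle.
-/

namespace Pool.Agent.Lib.MP_7bc610_gt.Ht

open Complex LaurentPolynomial

theorem chord {x : ℝ} (h0 : 0 ≤ x) (h1 : x ≤ 1) : x / 2 ≤ ‖exp (I * x) - 1‖ := by
  rw [Complex.norm_exp_I_mul_ofReal_sub_one, Real.norm_eq_abs]
  have hp := Real.pi_gt_three
  have h2 := Real.mul_le_sin (x := x / 2) (by linarith) (by linarith)
  have h3 : 1 / 2 ≤ 2 / Real.pi := by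
    rw [div_le_div_iff₀ (by norm_num) (by linarith)]
    linarith [Real.pi_le_four]
  refine le_trans ?_ (le_abs_self _)
  nlinarith

theorem chord_sub (x y : ℝ) :
    ‖exp (I * (y - x : ℝ)) - 1‖ ≤ ‖exp (I * x) - 1‖ + ‖exp (I * y) - 1‖ := by
  have e : exp (I * y) - 1 - (exp (I * x) - 1) = exp (I * x) * (exp (I * (y - x : ℝ)) - 1) := by
    rw [mul_sub, ← exp_add]
    push_cast
    ring_nf
  have := norm_sub_le (exp (I * y) - 1) (exp (I * x) - 1)
  rw [e, norm_mul, Complex.norm_exp_I_mul_ofReal, one_mul] at this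
  linarith

theorem exists_angle (θ0 : ℝ) (h0 : 0 < θ0) : ∃ N : ℕ, ∀ (n : ℕ → ℕ) (s : Finset ℕ),
    (∀ l ∈ s, N ≤ n l) → ∃ θ : ℝ, 0 < θ ∧ θ ≤ θ0 ∧
      ∀ l ∈ s, (1 / 4 : ℝ) ^ s.card / 2 ≤ ‖exp (I * (θ * n l : ℝ)) - 1‖ := by
  obtain ⟨N, hN⟩ := exists_nat_gt (2 / θ0)
  have hN0 : (0 : ℝ) < N := lt_trans (by positivity) hN
  refine ⟨N, fun n s hs => ?_⟩
  suffices H : ∃ a len : ℝ, θ0 / 2 ≤ a ∧ 0 ≤ len ∧ a + len ≤ θ0 ∧
      (∀ m : ℕ, N ≤ m → (∀ l ∈ s, n l ≤ m) → (1 / 4 : ℝ) ^ s.card ≤ len * m) ∧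
      ∀ θ : ℝ, a ≤ θ → θ ≤ a + len →
        ∀ l ∈ s, (1 / 4 : ℝ) ^ s.card / 2 ≤ ‖exp (I * (θ * n l : ℝ)) - 1‖ by
    obtain ⟨a, len, h1, h2, h3, -, h5⟩ := H
    exact ⟨a, by linarith, by linarith, h5 a le_rfl (by linarith)⟩
  induction s using Finset.induction_on_max_value n with
  | empty =>
    refine ⟨θ0 / 2, θ0 / 2, le_rfl, by linarith, by linarith, fun m hm _ => ?_, by simp⟩
    have : (N : ℝ) ≤ m := by exact_mod_cast hm
    rw [div_lt_iff₀ h0] at hN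
    simp only [Finset.card_empty, pow_zero]
    nlinarith
  | insert x s hx hmax ih =>
    obtain ⟨a, len, h1, h2, h3, h4, h5⟩ := ih fun l hl => hs l (Finset.mem_insert_of_mem hl)
    have hm := hs x (Finset.mem_insert_self _ _)
    have hm0 : (0 : ℝ) < n x := lt_of_lt_of_le hN0 (by exact_mod_cast hm)
    have h6 := h4 (n x) hm hmax
    rw [Finset.card_insert_of_notMem hx, pow_succ]
    have hc0 : 0 < (1 / 4 : ℝ) ^ s.card := by positivity
    have hc1 : (1 / 4 : ℝ) ^ s.card ≤ 1 := pow_le_one₀ (by norm_num) (by norm_num)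
    generalize (1 / 4 : ℝ) ^ s.card = c at *
    obtain ⟨q, hq⟩ : ∃ q : ℝ, q = c / (4 * n x) := ⟨_, rfl⟩
    have hq0 : 0 < q := by rw [hq]; positivity
    have hq1 : q * n x = c / 4 := by rw [hq]; field_simp
    have hq2 : 4 * q ≤ len := by
      refine le_of_mul_le_mul_right ?_ hm0
      linarith
    have key : ∃ b : ℝ, a ≤ b ∧ b + q ≤ a + len ∧
        ∀ θ : ℝ, b ≤ θ → θ ≤ b + q → c / 8 ≤ ‖exp (I * (θ * n x : ℝ)) - 1‖ := by
      by_contra hcon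
      push Not at hcon
      obtain ⟨y, y1, y2, y3⟩ := hcon a le_rfl (by linarith)
      obtain ⟨z, z1, z2, z3⟩ := hcon (a + 3 * q) (by linarith) (by linarith)
      have b1 : 2 * q * n x ≤ (z - y) * n x := mul_le_mul_of_nonneg_right (by linarith) hm0.le
      have b2 : (z - y) * n x ≤ 4 * q * n x := mul_le_mul_of_nonneg_right (by linarith) hm0.le
      have b3 := chord (x := z * n x - y * n x) (by linarith) (by linarith)
      have b4 := chord_sub (y * n x) (z * n x)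
      linarith
    obtain ⟨b, k1, k2, k3⟩ := key
    refine ⟨b, q, by linarith, hq0.le, by linarith, fun m _ hm' => ?_, fun θ t1 t2 l hl => ?_⟩
    · have : (n x : ℝ) ≤ m := by exact_mod_cast hm' x (Finset.mem_insert_self _ _)
      nlinarith
    · rcases Finset.mem_insert.1 hl with rfl | hl
      · linarith [k3 θ t1 t2]
      · linarith [h5 θ (by linarith) (by linarith) l hl]

theorem exists_eval (θ : ℝ) : ∃ φ : ℤ[T;T⁻¹] →+* ℂ, (∀ k, ‖φ (T k)‖ = 1) ∧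
    ‖φ loopVal‖ = ‖exp (I * θ) - 1‖ ∧ ∀ (e : Bool) (m : ℕ), ‖xx φ e ^ m‖ = 1 ∧
      ‖xx φ e ^ m - 1‖ = ‖exp (I * (θ * m : ℝ)) - 1‖ := by
  obtain ⟨A, hA⟩ : ∃ A : ℂ, A = exp (I * ((Real.pi + θ) / 4 : ℝ)) := ⟨_, rfl⟩
  have h0 : A ≠ 0 := hA ▸ exp_ne_zero _
  have h1 : ‖A‖ = 1 := hA ▸ Complex.norm_exp_I_mul_ofReal _
  have h4 : exp (I * θ) = -A ^ 4 := by
    rw [hA, ← Complex.exp_nat_mul]
    push_cast
    rw [show 4 * (I * ((Real.pi + θ) / 4)) = Real.pi * I + I * θ by ring, exp_add, exp_pi_mul_I]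
    ring
  have hT : ∀ k : ℤ, eval₂ (Int.castRingHom ℂ) (Units.mk0 A h0) (T k) = A ^ k := fun k => by
    rw [eval₂_T]; simp
  have hd : eval₂ (Int.castRingHom ℂ) (Units.mk0 A h0) loopVal = -A ^ 2 - (A ^ 2)⁻¹ := by
    rw [loopVal, map_sub, map_neg, hT, hT, zpow_neg]; rfl
  have hm : ∀ m : ℕ, exp (I * (θ * m : ℝ)) = (-A ^ 4) ^ m := fun m => by
    rw [← h4, ← Complex.exp_nat_mul]
    push_cast
    ring_nf
  have hn : ∀ m : ℕ, ‖(-A ^ 4) ^ m‖ = 1 := fun m => by simp [h1]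
  refine ⟨eval₂ (Int.castRingHom ℂ) (Units.mk0 A h0), fun k => by simp [hT, h1], ?_, ?_⟩
  · have : -A ^ 2 - (A ^ 2)⁻¹ = (A ^ 2)⁻¹ * (-A ^ 4 - 1) := by field_simp
    rw [hd, h4, this, norm_mul]
    simp [h1]
  · intro e m
    rw [hm]
    cases e with
    | false =>
      have : xx (eval₂ (Int.castRingHom ℂ) (Units.mk0 A h0)) false = -A ^ 4 := by
        simp only [xx, be, hd, hT, Bool.false_eq_true, if_false, zpow_one]
        field_simp
        ring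
      rw [this]
      exact ⟨hn m, rfl⟩
    | true =>
      have : xx (eval₂ (Int.castRingHom ℂ) (Units.mk0 A h0)) true = (-A ^ 4)⁻¹ := by
        simp only [xx, be, hd, hT, if_true, zpow_neg, zpow_one]
        field_simp
        ring
      have hz : (-A ^ 4) ^ m ≠ 0 := by
        rw [← norm_pos_iff, hn]; exact one_pos
      rw [this, inv_pow]
      refine ⟨by rw [norm_inv, hn, inv_one], ?_⟩
      rw [show ((-A ^ 4) ^ m)⁻¹ - 1 = -((-A ^ 4) ^ m)⁻¹ * ((-A ^ 4) ^ m - 1) by field_simp; ring,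
        norm_mul, norm_neg, norm_inv, hn, inv_one, one_mul]

end Pool.Agent.Lib.MP_7bc610_gt.Ht
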