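import Pool.Agent.Lib.MP_7bc610_gt.Ht.Step

/-!
States of a template, the parity lemma, and the effect of changing one smoothing.
-/

namespace Pool.Agent.Lib.MP_7bc610_gt.Ht

open Classical Relation

/-- The arcs below height `h` of the state with vertical smoothings at the heights in `R`. -/
inductive ArcR (T : Word) (R : Finset ℕ) (h : ℕ) : ℕ × ℕ → ℕ × ℕ → Prop where
  | left (l j i : ℕ) (k : Kind) : l < h → T[l]? = some (k, i) → j < i →
      ArcR T R h (l, j) (l + 1, j)
  | right (l j i : ℕ) (k : Kind) : l < h → T[l]? = some (k, i) → i + k.inp ≤ j →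
      j < width 0 T l → ArcR T R h (l, j) (l + 1, j - k.inp + k.out)
  | top (l i : ℕ) (k : Kind) : l < h → l ∉ R → T[l]? = some (k, i) → k.inp = 2 →
      ArcR T R h (l, i) (l, i + 1)
  | bottom (l i : ℕ) (k : Kind) : l < h → l ∉ R → T[l]? = some (k, i) → k.out = 2 →
      ArcR T R h (l + 1, i) (l + 1, i + 1)
  | vert (l j i : ℕ) (k : Kind) : l < h → l ∈ R → T[l]? = some (k, i) → (j = i ∨ j = i + 1) →
      ArcR T R h (l, j) (l + 1, j)

/-- The points of height at most `h`. -/
def Pts (T : Word) (h : ℕ) : Set (ℕ × ℕ) := {x | x.1 ≤ h ∧ x.2 < width 0 T x.1}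

theorem width_zero (n : ℕ) (T : Word) : width n T 0 = n := by cases T <;> rfl

theorem valid_at : ∀ (T : Word) (n m h : ℕ) (k : Kind) (i : ℕ), Valid n T m →
    T[h]? = some (k, i) →
    i + k.inp ≤ width n T h ∧ width n T (h + 1) = width n T h - k.inp + k.out
  | [], _, _, _, _, _, _, g => by simp at g
  | (k', i') :: T, n, m, 0, k, i, v, g => by
    simp only [List.getElem?_cons_zero, Option.some.injEq, Prod.mk.injEq] at g
    obtain ⟨rfl, rfl⟩ := g
    exact ⟨v.1, width_zero _ T⟩
  | (k', i') :: T, n, m, h + 1, k, i, v, g => valid_at T _ m h k i v.2 (by simpa using g)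

theorem valid_end : ∀ (T : Word) (n m : ℕ), Valid n T m → width n T T.length = m
  | [], _, _, v => v
  | (_, _) :: T, _, m, v => valid_end T _ m v.2

theorem pts_succ (T : Word) (h : ℕ) (x : ℕ × ℕ) :
    x ∈ Pts T (h + 1) ↔ x ∈ Pts T h ∨ (x.1 = h + 1 ∧ x.2 < width 0 T (h + 1)) := by
  simp only [Pts, Set.mem_ofPred_eq]
  constructor
  · rintro ⟨g, g'⟩
    rcases Nat.lt_or_eq_of_le g with c | c
    · exact Or.inl ⟨by omega, g'⟩
    · exact Or.inr ⟨c, c ▸ g'⟩
  · rintro (⟨g, g'⟩ | ⟨g, g'⟩)
    · exact ⟨by omega, g'⟩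
    · exact ⟨by omega, g ▸ g'⟩

theorem pts_zero (T : Word) : Pts T 0 = ∅ := by
  ext ⟨l, j⟩
  simp only [Pts, Set.mem_ofPred_eq, Set.mem_empty_iff_false, iff_false, not_and]
  intro g
  rw [show l = 0 by omega, width_zero]
  omega

theorem pts_finite (T : Word) : ∀ h, (Pts T h).Finite
  | 0 => by rw [pts_zero]; exact Set.finite_empty
  | h + 1 => by
    refine ((pts_finite T h).union (((Set.finite_lt_nat (width 0 T (h + 1))).image
      fun j => (h + 1, j)))).subset fun x hx => ?_
    rcases (pts_succ T h x).1 hx with g | ⟨g, g'⟩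
    · exact Or.inl g
    · exact Or.inr ⟨x.2, g', Prod.ext g.symm rfl⟩

theorem arcR_low {T : Word} {R : Finset ℕ} {h : ℕ} (x y : ℕ × ℕ) (g : ArcR T R h x y) :
    x.1 ≤ h ∧ y.1 ≤ h := by
  cases g <;> simp only <;> omega

theorem arcR_mono {T : Word} {R R' : Finset ℕ} {h h' : ℕ} (hh : h ≤ h')
    (hR : ∀ l < h, l ∈ R ↔ l ∈ R') {x y : ℕ × ℕ} (g : ArcR T R h x y) : ArcR T R' h' x y := by
  cases g with
  | left l j i k a b c => exact .left l j i k (by omega) b c
  | right l j i k a b c d => exact .right l j i k (by omega) b c d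
  | top l i k a b c d => exact .top l i k (by omega) (mt (hR l a).2 b) c d
  | bottom l i k a b c d => exact .bottom l i k (by omega) (mt (hR l a).2 b) c d
  | vert l j i k a b c d => exact .vert l j i k (by omega) ((hR l a).1 b) c d

theorem arcR_hor {T : Word} {R : Finset ℕ} {h i : ℕ} {k : Kind} (hk : T[h]? = some (k, i))
    (hR : h ∉ R) (x y : ℕ × ℕ) :
    ArcR T R (h + 1) x y ↔ ArcR T R h x y ∨ Piece h (width 0 T h) i k.inp k.out x y := by
  constructor
  · intro g
    cases g with
    | left l j i' k' a b c =>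
      rcases (by omega : l < h ∨ l = h) with q | rfl
      · exact Or.inl (.left l j i' k' q b c)
      · obtain ⟨rfl, rfl⟩ : k = k' ∧ i = i' := by simpa [hk] using b
        exact Or.inr (Or.inr (Or.inr (Or.inl ⟨j, c, rfl, rfl⟩)))
    | right l j i' k' a b c d =>
      rcases (by omega : l < h ∨ l = h) with q | rfl
      · exact Or.inl (.right l j i' k' q b c d)
      · obtain ⟨rfl, rfl⟩ : k = k' ∧ i = i' := by simpa [hk] using b
        exact Or.inr (Or.inr (Or.inr (Or.inr ⟨j, c, d, rfl, rfl⟩)))
    | top l i' k' a b c d =>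
      rcases (by omega : l < h ∨ l = h) with q | rfl
      · exact Or.inl (.top l i' k' q b c d)
      · obtain ⟨rfl, rfl⟩ : k = k' ∧ i = i' := by simpa [hk] using c
        exact Or.inr (Or.inl ⟨d, rfl, rfl⟩)
    | bottom l i' k' a b c d =>
      rcases (by omega : l < h ∨ l = h) with q | rfl
      · exact Or.inl (.bottom l i' k' q b c d)
      · obtain ⟨rfl, rfl⟩ : k = k' ∧ i = i' := by simpa [hk] using c
        exact Or.inr (Or.inr (Or.inl ⟨d, rfl, rfl⟩))
    | vert l j i' k' a b c d =>
      rcases (by omega : l < h ∨ l = h) with q | rfl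
      · exact Or.inl (.vert l j i' k' q b c d)
      · exact absurd b hR
  · rintro (g | ⟨g, rfl, rfl⟩ | ⟨g, rfl, rfl⟩ | ⟨j, g, rfl, rfl⟩ | ⟨j, g, g', rfl, rfl⟩)
    · exact arcR_mono (by omega) (fun _ _ => Iff.rfl) g
    · exact .top h i k (by omega) hR hk g
    · exact .bottom h i k (by omega) hR hk g
    · exact .left h j i k (by omega) hk g
    · exact .right h j i k (by omega) hk g g'

theorem arcR_ver {T : Word} {R : Finset ℕ} {h i : ℕ} {e : Bool}
    (hk : T[h]? = some (Kind.cr e, i)) (hi : i + 2 ≤ width 0 T h) (x y : ℕ × ℕ) :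
    ArcR T (insert h R) (h + 1) x y ↔
      ArcR T R h x y ∨ Piece h (width 0 T h) (width 0 T h) 0 0 x y := by
  have m : ∀ l < h, l ∈ insert h R ↔ l ∈ R := fun l hl => by simp [hl.ne]
  constructor
  · intro g
    cases g with
    | left l j i' k' a b c =>
      rcases (by omega : l < h ∨ l = h) with q | rfl
      · exact Or.inl (.left l j i' k' q b c)
      · obtain ⟨rfl, rfl⟩ : Kind.cr e = k' ∧ i = i' := by simpa [hk] using b
        exact Or.inr (Or.inr (Or.inr (Or.inl ⟨j, by omega, rfl, rfl⟩)))
    | right l j i' k' a b c d =>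
      rcases (by omega : l < h ∨ l = h) with q | rfl
      · exact Or.inl (.right l j i' k' q b c d)
      · obtain ⟨rfl, rfl⟩ : Kind.cr e = k' ∧ i = i' := by simpa [hk] using b
        refine Or.inr (Or.inr (Or.inr (Or.inl ⟨j, d, rfl, ?_⟩)))
        simp only [Kind.inp, Kind.out] at c ⊢
        congr 1; omega
    | top l i' k' a b c d =>
      rcases (by omega : l < h ∨ l = h) with q | rfl
      · exact Or.inl (.top l i' k' q (mt (m l q).2 b) c d)
      · simp at b
    | bottom l i' k' a b c d =>
      rcases (by omega : l < h ∨ l = h) with q | rfl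
      · exact Or.inl (.bottom l i' k' q (mt (m l q).2 b) c d)
      · simp at b
    | vert l j i' k' a b c d =>
      rcases (by omega : l < h ∨ l = h) with q | rfl
      · exact Or.inl (.vert l j i' k' q ((m l q).1 b) c d)
      · obtain ⟨rfl, rfl⟩ : Kind.cr e = k' ∧ i = i' := by simpa [hk] using c
        exact Or.inr (Or.inr (Or.inr (Or.inl ⟨j, by omega, rfl, rfl⟩)))
  · rintro (g | ⟨g, rfl, rfl⟩ | ⟨g, rfl, rfl⟩ | ⟨j, g, rfl, rfl⟩ | ⟨j, g, g', rfl, rfl⟩)
    · exact arcR_mono (by omega) (fun l hl => (m l hl).symm) g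
    · omega
    · omega
    · rcases (by omega : j < i ∨ (j = i ∨ j = i + 1) ∨ i + 2 ≤ j) with q | q | q
      · exact .left h j i _ (by omega) hk q
      · exact .vert h j i _ (by omega) (by simp) hk q
      · have := ArcR.right (T := T) (R := insert h R) (h := h + 1) h j i _ (by omega) hk q g
        simp only [Kind.inp, Kind.out] at this
        rwa [show j - 2 + 2 = j by omega] at this
    · omega

theorem piece_sum (f g : ℕ → ZMod 2) (n i p q : ℕ) (hi : i + p ≤ n) (h1 : ∀ j < i, f j = g j)
    (h2 : ∀ j, i + p ≤ j → j < n → f j = g (j - p + q)) :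
    ∑ j ∈ Finset.range (n - p + q), g j = ∑ j ∈ Finset.range n, f j +
      (∑ j ∈ Finset.range p, f (i + j) + ∑ j ∈ Finset.range q, g (i + j)) := by
  obtain ⟨m, rfl⟩ := Nat.exists_eq_add_of_le hi
  rw [show i + p + m - p + q = i + q + m by omega]
  simp only [Finset.sum_range_add]
  have e1 : ∑ j ∈ Finset.range i, f j = ∑ j ∈ Finset.range i, g j :=
    Finset.sum_congr rfl fun j hj => h1 j (Finset.mem_range.1 hj)
  have e2 : ∑ j ∈ Finset.range m, f (i + p + j) = ∑ j ∈ Finset.range m, g (i + q + j) :=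
    Finset.sum_congr rfl fun j hj => by
      rw [h2 _ (by omega) (by have := Finset.mem_range.1 hj; omega)]
      congr 1; omega
  rw [e1, e2]
  have two : (2 : ZMod 2) = 0 := rfl
  linear_combination (-∑ j ∈ Finset.range p, f (i + j)) * two

theorem parity {T : Word} (v : Valid 0 T 0) {R : Finset ℕ} (hR : ∀ l ∈ R, l ∈ crossings T)
    {l i : ℕ} {e : Bool} (hl : T[l]? = some (Kind.cr e, i)) (χ : ℕ × ℕ → ZMod 2)
    (hχ : ∀ x y, ArcR T R T.length x y → ArcR T (insert l R) T.length x y → χ x = χ y) :
    χ (l, i) + χ (l, i + 1) + (χ (l + 1, i) + χ (l + 1, i + 1)) = 0 := by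
  have two : (2 : ZMod 2) = 0 := rfl
  have key : ∀ h ≤ T.length, ∑ j ∈ Finset.range (width 0 T h), χ (h, j) =
      if l < h then χ (l, i) + χ (l, i + 1) + (χ (l + 1, i) + χ (l + 1, i + 1)) else 0 := by
    intro h
    induction h with
    | zero => intro _; simp [width_zero]
    | succ h ih =>
      intro hh
      obtain ⟨⟨k, i'⟩, hk⟩ : ∃ g, T[h]? = some g := ⟨_, List.getElem?_eq_getElem (by omega)⟩
      obtain ⟨v1, v2⟩ := valid_at T 0 0 h k i' v hk
      rw [v2, piece_sum (fun j => χ (h, j)) (fun j => χ (h + 1, j)) _ i' _ _ v1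
        (fun j hj => hχ _ _ (.left h j i' k hh hk hj) (.left h j i' k hh hk hj))
        (fun j hj hj' => hχ _ _ (.right h j i' k hh hk hj hj') (.right h j i' k hh hk hj hj')),
        ih (by omega)]
      by_cases c : h = l
      · subst c
        obtain ⟨rfl, rfl⟩ : Kind.cr e = k ∧ i = i' := by simpa [hl] using hk
        simp [Kind.inp, Kind.out, Finset.sum_range_succ]
      · have c' : l < h + 1 ↔ l < h := by omega
        simp only [c', add_eq_left]
        by_cases d : h ∈ R
        · obtain ⟨e', i'', hh'⟩ := hR h d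
          obtain ⟨rfl, rfl⟩ : Kind.cr e' = k ∧ i'' = i' := by simpa [hh'] using hk
          have a1 := hχ _ _ (.vert h i'' i'' _ hh d hk (Or.inl rfl))
            (.vert h i'' i'' _ hh (by simp [d]) hk (Or.inl rfl))
          have a2 := hχ _ _ (.vert h (i'' + 1) i'' _ hh d hk (Or.inr rfl))
            (.vert h (i'' + 1) i'' _ hh (by simp [d]) hk (Or.inr rfl))
          simp only [Kind.inp, Kind.out, Finset.sum_range_succ, Finset.sum_range_zero, add_zero,
            zero_add, a1, a2]
          linear_combination (χ (h + 1, i'') + χ (h + 1, i'' + 1)) * two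
        · have d' : h ∉ insert l R := by simp [c, d]
          have a1 : ∑ j ∈ Finset.range k.inp, χ (h, i' + j) = 0 := by
            rcases (by cases k <;> simp [Kind.inp] : k.inp = 0 ∨ k.inp = 2) with q | q
            · simp [q]
            · have := hχ _ _ (.top h i' k hh d hk q) (.top h i' k hh d' hk q)
              simp only [q, Finset.sum_range_succ, Finset.sum_range_zero, add_zero, zero_add, this]
              linear_combination (χ (h, i' + 1)) * two
          have a2 : ∑ j ∈ Finset.range k.out, χ (h + 1, i' + j) = 0 := by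
            rcases (by cases k <;> simp [Kind.out] : k.out = 0 ∨ k.out = 2) with q | q
            · simp [q]
            · have := hχ _ _ (.bottom h i' k hh d hk q) (.bottom h i' k hh d' hk q)
              simp only [q, Finset.sum_range_succ, Finset.sum_range_zero, add_zero, zero_add, this]
              linear_combination (χ (h + 1, i' + 1)) * two
          rw [a1, a2, add_zero]
  have := key T.length le_rfl
  have hlt : l < T.length := (List.getElem?_eq_some_iff.1 hl).1
  rw [valid_end T 0 0 v, if_pos hlt] at this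
  simpa using this.symm

/-- Connectivity in the state `R`. -/
def con (T : Word) (R : Finset ℕ) : ℕ × ℕ → ℕ × ℕ → Prop := EqvGen (ArcR T R T.length)

/-- The number of circles of the state `R`. -/
noncomputable def circ (T : Word) (R : Finset ℕ) : ℕ := ncls (con T R) (Pts T T.length)

theorem con_equiv (T : Word) (R : Finset ℕ) : Equivalence (con T R) := EqvGen.is_equivalence _

theorem con_insert_le {T : Word} {R : Finset ℕ} {l i : ℕ} {e : Bool}
    (hl : T[l]? = some (Kind.cr e, i)) (hn : l ∉ R) {s : ℕ × ℕ → ℕ × ℕ → Prop}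
    (hs : Equivalence s) (h1 : ∀ x y, con T R x y → s x y) (h2 : s (l, i) (l + 1, i)) :
    ∀ x y, con T (insert l R) x y → s x y := by
  have hlt : l < T.length := (List.getElem?_eq_some_iff.1 hl).1
  refine eqv_le hs fun x y g => ?_
  cases g with
  | left l' j i' k a b c => exact h1 _ _ (.rel _ _ (.left l' j i' k a b c))
  | right l' j i' k a b c d => exact h1 _ _ (.rel _ _ (.right l' j i' k a b c d))
  | top l' i' k a b c d =>
    exact h1 _ _ (.rel _ _ (.top l' i' k a (mt Finset.mem_insert_of_mem b) c d))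
  | bottom l' i' k a b c d =>
    exact h1 _ _ (.rel _ _ (.bottom l' i' k a (mt Finset.mem_insert_of_mem b) c d))
  | vert l' j i' k a b c d =>
    rcases Finset.mem_insert.1 b with rfl | b
    · obtain ⟨rfl, rfl⟩ : Kind.cr e = k ∧ i = i' := by simpa [hl] using c
      rcases d with rfl | rfl
      · exact h2
      · exact hs.trans (hs.symm (h1 _ _ (.rel _ _ (.top l' i _ a hn hl rfl))))
          (hs.trans h2 (h1 _ _ (.rel _ _ (.bottom l' i _ a hn hl rfl))))
    · exact h1 _ _ (.rel _ _ (.vert l' j i' k a b c d))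

theorem circ_same {T : Word} {R : Finset ℕ} {l i : ℕ} {e : Bool}
    (hl : T[l]? = some (Kind.cr e, i)) (hn : l ∉ R) (h : con T R (l, i) (l + 1, i)) :
    circ T R ≤ circ T (insert l R) :=
  ncls_le (con_equiv _ _) (con_equiv _ _) (pts_finite _ _)
    (fun x _ y _ => con_insert_le hl hn (con_equiv T R) (fun _ _ g => g) h x y)
    fun y hy => ⟨y, hy, (con_equiv _ _).refl y⟩

theorem con_diff {T : Word} (v : Valid 0 T 0) {R : Finset ℕ} (hR : ∀ l ∈ R, l ∈ crossings T)
    {l i : ℕ} {e : Bool} (hl : T[l]? = some (Kind.cr e, i)) (hn : l ∉ R)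
    (h : ¬ con T R (l, i) (l + 1, i)) :
    con T (insert l R) = jn (con T R) (l, i) (l + 1, i) := by
  have hlt : l < T.length := (List.getElem?_eq_some_iff.1 hl).1
  have e1 := con_equiv T R
  have e2 := con_equiv T (insert l R)
  have ac : con T (insert l R) (l, i) (l + 1, i) :=
    .rel _ _ (.vert l i i _ hlt (by simp) hl (Or.inl rfl))
  have bd : con T (insert l R) (l, i + 1) (l + 1, i + 1) :=
    .rel _ _ (.vert l (i + 1) i _ hlt (by simp) hl (Or.inr rfl))
  have cd : con T R (l + 1, i) (l + 1, i + 1) := .rel _ _ (.bottom l i _ hlt hn hl rfl)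
  have ab : con T (insert l R) (l, i) (l, i + 1) := by
    have := parity v hR hl
      (fun x => if con T R (l, i) x ∧ con T (insert l R) (l, i) x then 1 else 0) fun x y p q => by
        have : (con T R (l, i) x ∧ con T (insert l R) (l, i) x) ↔
            (con T R (l, i) y ∧ con T (insert l R) (l, i) y) :=
          ⟨fun g => ⟨e1.trans g.1 (.rel _ _ p), e2.trans g.2 (.rel _ _ q)⟩,
           fun g => ⟨e1.trans g.1 (e1.symm (.rel _ _ p)), e2.trans g.2 (e2.symm (.rel _ _ q))⟩⟩
        simp only [this]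
    by_contra q
    have h' : ¬ con T R (l, i) (l + 1, i + 1) := fun g => h (e1.trans g (e1.symm cd))
    simp [h, h', q, e1.refl, e2.refl] at this
  funext x y
  refine propext ⟨con_insert_le hl hn (jn_equiv e1 _ _) (fun _ _ g => Or.inl g) (jn_self e1 _ _)
    x y, jn_le e2 (eqv_le e2 fun x y g => ?_) ac x y⟩
  cases g with
  | left l' j i' k a b c => exact .rel _ _ (.left l' j i' k a b c)
  | right l' j i' k a b c d => exact .rel _ _ (.right l' j i' k a b c d)
  | top l' i' k a b c d =>
    by_cases q : l' = l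
    · subst q
      obtain ⟨rfl, rfl⟩ : Kind.cr e = k ∧ i = i' := by simpa [hl] using c
      exact ab
    · exact .rel _ _ (.top l' i' k a (by simp [q, b]) c d)
  | bottom l' i' k a b c d =>
    by_cases q : l' = l
    · subst q
      obtain ⟨rfl, rfl⟩ : Kind.cr e = k ∧ i = i' := by simpa [hl] using c
      exact e2.trans (e2.symm ac) (e2.trans ab bd)
    · exact .rel _ _ (.bottom l' i' k a (by simp [q, b]) c d)
  | vert l' j i' k a b c d => exact .rel _ _ (.vert l' j i' k a (by simp [b]) c d)

theorem circ_diff {T : Word} (v : Valid 0 T 0) {R : Finset ℕ} (hR : ∀ l ∈ R, l ∈ crossings T)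
    {l i : ℕ} {e : Bool} (hl : T[l]? = some (Kind.cr e, i)) (hn : l ∉ R)
    (h : ¬ con T R (l, i) (l + 1, i)) : circ T (insert l R) + 1 = circ T R := by
  have hlt : l < T.length := (List.getElem?_eq_some_iff.1 hl).1
  obtain ⟨v1, v2⟩ := valid_at T 0 0 l _ i v hl
  simp only [Kind.inp, Kind.out] at v1 v2
  rw [circ, con_diff v hR hl hn h]
  exact ncls_jn (con_equiv T R) (pts_finite _ _) ⟨hlt.le, by simp only; omega⟩
    ⟨hlt, by simp only; omega⟩ h

end Pool.Agent.Lib.MP_7bc610_gt.Ht
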