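import Pool.Agent.Lib.MP_7bc610_gt.Ht.Forest

/-!
Counting the classes of an equivalence relation on a finite set.
-/

namespace Pool.Agent.Lib.MP_7bc610_gt.Ht

open Classical Relation

variable {V : Type}

/-- The number of classes of `r` that meet `P`. -/
noncomputable def ncls (r : V → V → Prop) (P : Set V) : ℕ :=
  ((fun x => {y | r x y}) '' P).ncard

theorem cls_eq {r : V → V → Prop} (h : Equivalence r) {x y : V} :
    {z | r x z} = {z | r y z} ↔ r x y :=
  ⟨fun e => h.symm (show x ∈ {z | r y z} from e ▸ h.refl x),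
   fun e => Set.ext fun _ => ⟨fun g => h.trans (h.symm e) g, fun g => h.trans e g⟩⟩

theorem ncls_le {r s : V → V → Prop} (hr : Equivalence r) (hs : Equivalence s) {P Q : Set V}
    (hP : P.Finite) (h1 : ∀ x ∈ P, ∀ y ∈ P, r x y → s x y) (h2 : ∀ y ∈ Q, ∃ x ∈ P, s x y) :
    ncls s Q ≤ ncls r P := by
  have : (fun x => {y | s x y}) '' Q ⊆
      (fun S : Set V => {z | ∃ x ∈ P, x ∈ S ∧ s x z}) '' ((fun x => {y | r x y}) '' P) := by
    rintro _ ⟨y, hy, rfl⟩
    obtain ⟨x, hx, e⟩ := h2 y hy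
    refine ⟨_, ⟨x, hx, rfl⟩, Set.ext fun z => ⟨?_, fun g => ⟨x, hx, hr.refl x, hs.trans e g⟩⟩⟩
    rintro ⟨x', hx', p, q⟩
    exact hs.trans (hs.symm e) (hs.trans (h1 x hx x' hx' p) q)
  exact (Set.ncard_le_ncard this ((hP.image _).image _)).trans
    (Set.ncard_image_le (hP.image _))

theorem ncls_retract {r s : V → V → Prop} (hr : Equivalence r) (hs : Equivalence s)
    {P Q : Set V} (hP : P.Finite) (hQ : Q ⊆ P) (π : V → V) (h : ∀ x y, s x y ↔ r (π x) (π y))
    (h1 : ∀ x ∈ Q, π x = x) (h2 : ∀ x ∈ P, π x ∈ Q) : ncls s P = ncls r Q := by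
  apply le_antisymm
  · refine ncls_le hr hs (hP.subset hQ) (fun x hx y hy g => ?_) fun y hy => ⟨π y, h2 y hy, ?_⟩
    · rw [h, h1 x hx, h1 y hy]; exact g
    · rw [h, h1 _ (h2 y hy)]; exact hr.refl _
  · refine (ncls_le hs hr (hP.subset hQ) (fun x hx y hy g => ?_)
      fun y hy => ⟨y, hy, hr.refl y⟩).trans
      (Set.ncard_le_ncard (Set.image_mono hQ) (hP.image _))
    rwa [h, h1 x hx, h1 y hy] at g

theorem ncls_insert {r : V → V → Prop} (hr : Equivalence r) {P : Set V} (hP : P.Finite) (x : V)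
    (h : ∀ y ∈ P, ¬ r y x) : ncls r (insert x P) = ncls r P + 1 := by
  unfold ncls
  rw [Set.image_insert_eq, Set.ncard_insert_of_notMem _ (hP.image _)]
  rintro ⟨y, hy, e⟩
  exact h y hy ((cls_eq hr).1 e)

theorem ncls_jn {r : V → V → Prop} (hr : Equivalence r) {P : Set V} (hP : P.Finite) {a b : V}
    (ha : a ∈ P) (hb : b ∈ P) (h : ¬ r a b) : ncls (jn r a b) P + 1 = ncls r P := by
  have hj := jn_equiv hr a b
  have hQ : {y | y ∈ P ∧ ¬ r y b}.Finite := hP.subset fun y hy => hy.1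
  have e1 : ncls (jn r a b) P = ncls r {y | y ∈ P ∧ ¬ r y b} := by
    apply le_antisymm
    · refine ncls_le hr hj hQ (fun x _ y _ g => Or.inl g) fun y hy => ?_
      by_cases q : r y b
      · exact ⟨a, ⟨ha, h⟩, Or.inr (Or.inl ⟨hr.refl a, hr.symm q⟩)⟩
      · exact ⟨y, ⟨hy, q⟩, hj.refl y⟩
    · refine (ncls_le hj hr hQ ?_ fun y hy => ⟨y, hy, hr.refl y⟩).trans
        (Set.ncard_le_ncard (Set.image_mono fun y hy => hy.1) (hP.image _))
      rintro x hx y hy (g | ⟨_, g⟩ | ⟨g, _⟩)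
      · exact g
      · exact absurd (hr.symm g) hy.2
      · exact absurd g hx.2
  rw [e1, ← ncls_insert hr hQ b fun y hy => hy.2]
  apply le_antisymm
  · refine Set.ncard_le_ncard (Set.image_mono ?_) (hP.image _)
    rintro y (rfl | hy)
    · exact hb
    · exact hy.1
  · refine ncls_le hr hr (hQ.insert b) (fun x _ y _ g => g) fun y hy => ?_
    by_cases q : r y b
    · exact ⟨b, Or.inl rfl, hr.symm q⟩
    · exact ⟨y, Or.inr ⟨hy, q⟩, hr.refl y⟩

theorem jn_of_rel {r : V → V → Prop} (hr : Equivalence r) {a b : V} (h : r a b) :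
    jn r a b = r := by
  funext x y
  exact propext ⟨jn_le hr (fun _ _ g => g) h x y, Or.inl⟩

theorem eqv_le {E s : V → V → Prop} (hs : Equivalence s) (h : ∀ x y, E x y → s x y) :
    ∀ x y, EqvGen E x y → s x y := by
  intro x y g
  induction g with
  | rel x y g => exact h x y g
  | refl x => exact hs.refl x
  | symm x y _ ih => exact hs.symm ih
  | trans x y z _ _ i1 i2 => exact hs.trans i1 i2

theorem eqv_retract {E r : V → V → Prop} (hr : Equivalence r) (π : V → V)
    (h1 : ∀ x y, E x y → r (π x) (π y)) (h2 : ∀ x, EqvGen E x (π x))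
    (h3 : ∀ x y, r x y → EqvGen E x y) (x y : V) : EqvGen E x y ↔ r (π x) (π y) := by
  have e := EqvGen.is_equivalence E
  refine ⟨eqv_le (s := fun x y => r (π x) (π y))
    ⟨fun x => hr.refl _, fun g => hr.symm g, fun g g' => hr.trans g g'⟩ h1 x y, fun g => ?_⟩
  exact e.trans (h2 x) (e.trans (h3 _ _ g) (e.symm (h2 y)))

theorem ncls_quot (E : V → V → Prop) (P : Set V) :
    ncls (EqvGen E) P = (Quot.mk E '' P).ncard := by
  have e := EqvGen.is_equivalence E
  have : (fun x => {y | EqvGen E x y}) '' P =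
      (fun q : Quot E => {y | q = Quot.mk E y}) '' (Quot.mk E '' P) := by
    rw [Set.image_image]
    refine Set.image_congr fun x _ => Set.ext fun y => ?_
    exact Quot.eq.symm
  rw [ncls, this, Set.ncard_image_of_injective]
  intro q q' h
  induction q using Quot.ind with
  | mk x =>
    have h' : {y | Quot.mk E x = Quot.mk E y} = {y | q' = Quot.mk E y} := h
    exact (show x ∈ {y | q' = Quot.mk E y} from h' ▸ rfl).symm

end Pool.Agent.Lib.MP_7bc610_gt.Ht
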