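import Pool.Agent.Lib.MP_7bc610_gt.Defs

/-!
Highly twisted diagrams.  A template is a diagram `T` with one crossing for each twist region;
`twist T n` replaces the crossing at height `l` by a column of `n l` crossings.
-/

namespace Pool.Agent.Lib.MP_7bc610_gt.Ht

/-- Replace the crossing at height `l` by `n l` equal crossings, one above the other. -/
def twist : Word → (ℕ → ℕ) → Word
  | [], _ => []
  | (.cup, i) :: w, n => (.cup, i) :: twist w fun l => n (l + 1)
  | (.cap, i) :: w, n => (.cap, i) :: twist w fun l => n (l + 1)
  | (.cr e, i) :: w, n => List.replicate (n 0) (.cr e, i) ++ twist w fun l => n (l + 1)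

/-- Number of strands at height `l` (after the first `l` pieces), starting from `n` strands. -/
def width : ℕ → Word → ℕ → ℕ
  | n, _, 0 => n
  | n, [], _ + 1 => n
  | n, g :: w, l + 1 => width (n - g.1.inp + g.1.out) w l

/-- The heights of the crossings. -/
def crossings (T : Word) : Set ℕ := {l | ∃ e i, T[l]? = some (Kind.cr e, i)}

/-- A point is a pair (height, position of a strand).  Smooth every crossing into a maximum below
a minimum; `Arc T a b` says that `a` and `b` are the ends of an elementary arc of this state. -/
inductive Arc (T : Word) : ℕ × ℕ → ℕ × ℕ → Prop where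
  | left (l j i : ℕ) (k : Kind) : T[l]? = some (k, i) → j < i → Arc T (l, j) (l + 1, j)
  | right (l j i : ℕ) (k : Kind) : T[l]? = some (k, i) → i + k.inp ≤ j → j < width 0 T l →
      Arc T (l, j) (l + 1, j - k.inp + k.out)
  | top (l i : ℕ) (k : Kind) : T[l]? = some (k, i) → k.inp = 2 → Arc T (l, i) (l, i + 1)
  | bottom (l i : ℕ) (k : Kind) : T[l]? = some (k, i) → k.out = 2 →
      Arc T (l + 1, i) (l + 1, i + 1)

/-- The state graph: its vertices are the classes of points (the state circles, and isolated
vertices for pairs that are not points of the diagram); a crossing joins the circle below it to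
the circle above it. -/
def stateGraph (T : Word) : SimpleGraph (Quot (Arc T)) :=
  SimpleGraph.fromRel fun u v => ∃ l e i, T[l]? = some (Kind.cr e, i) ∧
    u = Quot.mk (Arc T) (l, i) ∧ v = Quot.mk (Arc T) (l + 1, i)

/-- The state multigraph is 3-edge-connected: a set `U` of circles that contains some circle and
misses some circle is joined to its complement by at least three crossings. -/
def ThreeConnected (T : Word) : Prop :=
  ∀ U : Set (Quot (Arc T)),
    (∃ l j, l ≤ T.length ∧ j < width 0 T l ∧ Quot.mk (Arc T) (l, j) ∈ U) →
    (∃ l j, l ≤ T.length ∧ j < width 0 T l ∧ Quot.mk (Arc T) (l, j) ∉ U) →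
    3 ≤ Set.ncard {l | ∃ e i, T[l]? = some (Kind.cr e, i) ∧
      (Quot.mk (Arc T) (l, i) ∈ U ↔ Quot.mk (Arc T) (l + 1, i) ∉ U)}

/-- Tree-width at most two: `G` is a subgraph of a graph `H` with an ordering of the vertices in
which the later neighbours of every vertex form a clique with at most two elements. -/
def TreewidthTwo {V : Type} (G : SimpleGraph V) : Prop :=
  ∃ (H : SimpleGraph V) (o : V → ℕ), G ≤ H ∧ Function.Injective o ∧
    ∀ x, H.IsClique {y | H.Adj x y ∧ o x < o y} ∧ Set.encard {y | H.Adj x y ∧ o x < o y} ≤ 2

end Pool.Agent.Lib.MP_7bc610_gt.Ht
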