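import Pool.Agent.Lib.MP_7bc610_gt.Ht.Forest

/-!
Non-vanishing of the forest function for graphs of tree-width two, and a uniform lower bound.
-/

namespace Pool.Agent.Lib.MP_7bc610_gt.Ht

open Classical

variable {V : Type}

theorem Fo_loops : ∀ (es : List (Ed V)), (∀ e ∈ es, e.a = e.b) → Fo es Eq = 1
  | [], _ => rfl
  | e :: es, h => by
    simp only [Fo, h e (by simp), if_true, add_zero]
    exact Fo_loops es fun e he => h e (by simp [he])

theorem two_cover (N : Set V) (H : SimpleGraph V) (hc : H.IsClique N) (hN : N.encard ≤ 2)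
    (y : V) : ∃ u v, (u = y ∨ u ∈ N) ∧ (v = y ∨ v ∈ N) ∧ (u = v ∨ H.Adj u v) ∧
      ∀ z ∈ N, z = u ∨ z = v := by
  by_cases h1 : ∃ u, u ∈ N
  · obtain ⟨u, hu⟩ := h1
    by_cases h2 : ∃ v, v ∈ N ∧ v ≠ u
    · obtain ⟨v, hv, hne⟩ := h2
      refine ⟨u, v, Or.inr hu, Or.inr hv, Or.inr (hc hu hv hne.symm), fun z hz => ?_⟩
      by_contra q
      rw [not_or] at q
      have : ({z, u, v} : Set V) ⊆ N := by
        rintro a (rfl | rfl | rfl) <;> assumption
      have h3 := (Set.encard_le_encard this).trans hN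
      rw [Set.encard_insert_of_notMem (by simp [q.1, q.2]), Set.encard_pair hne.symm] at h3
      exact absurd h3 (by decide)
    · refine ⟨u, u, Or.inr hu, Or.inr hu, Or.inl rfl, fun z hz => Or.inl ?_⟩
      by_contra q
      exact h2 ⟨z, hz, q⟩
  · exact ⟨y, y, Or.inl rfl, Or.inl rfl, Or.inl rfl, fun z hz => (h1 ⟨z, hz⟩).elim⟩

theorem Fo_ne_zero (H : SimpleGraph V) (o : V → ℕ) (ho : Function.Injective o)
    (hH : ∀ x, H.IsClique {y | H.Adj x y ∧ o x < o y} ∧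
      Set.encard {y | H.Adj x y ∧ o x < o y} ≤ 2) :
    ∀ (k : ℕ) (Vs : Finset V) (es : List (Ed V)), Vs.card = k →
      (∀ e ∈ es, e.a ∈ Vs ∧ e.b ∈ Vs ∧ (e.a = e.b ∨ H.Adj e.a e.b) ∧ Cl e.w e.c) →
      (∀ U : Set V, (∃ a ∈ Vs, a ∈ U) → (∃ b ∈ Vs, b ∉ U) → 3 ≤ cut U es) → Fo es Eq ≠ 0 := by
  intro k
  induction k with
  | zero =>
    intro Vs es hk h _
    rw [Finset.card_eq_zero] at hk
    rw [Fo_loops es fun e he => absurd (h e he).1 (by simp [hk])]
    exact one_ne_zero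
  | succ k ih =>
    intro Vs es hk h hcut
    obtain ⟨x, hx, hmin⟩ := Vs.exists_min_image o (Finset.card_pos.1 (by omega))
    by_cases hy : ∃ y ∈ Vs, y ≠ x
    swap
    · push Not at hy
      rw [Fo_loops es fun e he => by rw [hy _ (h e he).1, hy _ (h e he).2.1]]
      exact one_ne_zero
    obtain ⟨y, hy, hyx⟩ := hy
    obtain ⟨u, v, hu, hv, huv, hN⟩ := two_cover {z | z ∈ Vs ∧ H.Adj x z ∧ o x < o z} H
      ((hH x).1.subset fun z hz => hz.2)
      ((Set.encard_le_encard fun z hz => hz.2).trans (hH x).2) y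
    have hu' : u ∈ Vs ∧ u ≠ x := by
      rcases hu with rfl | hu
      · exact ⟨hy, hyx⟩
      · exact ⟨hu.1, hu.2.1.ne.symm⟩
    have hv' : v ∈ Vs ∧ v ≠ x := by
      rcases hv with rfl | hv
      · exact ⟨hy, hyx⟩
      · exact ⟨hv.1, hv.2.1.ne.symm⟩
    have hnb : ∀ z ∈ Vs, (x = z ∨ H.Adj x z) → z = x ∨ z = u ∨ z = v := by
      rintro z hz (rfl | q)
      · exact Or.inl rfl
      · exact Or.inr (hN z ⟨hz, q, lt_of_le_of_ne (hmin z hz) fun e => q.ne (ho e)⟩)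
    obtain ⟨w1, w2, c1, c2, rest, k1, k2, k3, k4⟩ := normal x u v es 0 0 0 0
      (Or.inl ⟨rfl, rfl⟩) (Or.inl ⟨rfl, rfl⟩) (fun e he => (h e he).2.2.2) fun e he => by
        obtain ⟨p1, p2, p3, -⟩ := h e he
        constructor
        · intro q; exact hnb _ p2 (q ▸ p3)
        · intro q
          refine hnb _ p1 ?_
          rcases p3 with p3 | p3
          · exact Or.inl (by rw [p3, q])
          · exact Or.inr (q ▸ p3.symm)
    have E := ((Eqv.zero x v es).trans' (Eqv.zero x u _)).trans' k4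
    have hA : ∀ e ∈ rest, e.a ∈ {z | z ≠ x} ∧ e.b ∈ {z | z ≠ x} := fun e he => (k3 e he).2
    have hemp : ∀ l : List (Ed V), cut ∅ l = 0 := by
      intro l
      induction l with
      | nil => rfl
      | cons e l ih => simp [cut, ih]
    have h3 : 3 ≤ c1 + c2 := by
      have := hcut {x} ⟨x, hx, rfl⟩ ⟨y, hy, hyx⟩
      rw [E.2] at this
      have e0 : cut {x} rest = cut ∅ rest :=
        cut_congr {z | z ≠ x} _ _ (fun z hz => by simpa using hz) rest hA
      simpa [cut, e0, hemp, hu'.2, hv'.2] using this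
    have hD : 1 + w1 + w2 ≠ 0 := by
      rcases k1.add k2 with ⟨q, _⟩ | ⟨_, _, _, q⟩
      · omega
      · intro e
        exact q h3 (by linear_combination e)
    rw [E.1 Eq eq_equivalence,
      Fo_elim x u v hu'.2 hv'.2 w1 w2 c1 c2 (min c1 c2) rest (fun e he => (k3 e he).2) hD]
    refine mul_ne_zero hD (ih (Vs.erase x) _ (by rw [Finset.card_erase_of_mem hx]; omega) ?_ ?_)
    · intro e he
      rcases List.mem_cons.1 he with rfl | he
      · exact ⟨Finset.mem_erase.2 ⟨hu'.2, hu'.1⟩, Finset.mem_erase.2 ⟨hv'.2, hv'.1⟩, huv,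
          k1.ser k2 hD⟩
      · obtain ⟨q1, q2, q3⟩ := k3 e he
        obtain ⟨p1, p2, p3⟩ := h e q1
        exact ⟨Finset.mem_erase.2 ⟨q2, p1⟩, Finset.mem_erase.2 ⟨q3, p2⟩, p3⟩
    · rintro U ⟨a, ha, haU⟩ ⟨b, hb, hbU⟩
      rw [Finset.mem_erase] at ha hb
      have q1 := hcut (insert x U) ⟨x, hx, by simp⟩ ⟨b, hb.2, by simp [hb.1, hbU]⟩
      have q2 := hcut (U \ {x}) ⟨a, ha.2, by simp [ha.1, haU]⟩ ⟨x, hx, by simp⟩
      rw [E.2] at q1 q2
      have e1 : cut (insert x U) rest = cut U rest :=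
        cut_congr {z | z ≠ x} _ _ (fun z hz => by simp [show z ≠ x from hz]) rest hA
      have e2 : cut (U \ {x}) rest = cut U rest :=
        cut_congr {z | z ≠ x} _ _ (fun z hz => by simp [show z ≠ x from hz]) rest hA
      simp only [cut, e1, e2] at q1 q2 ⊢
      by_cases p1 : u ∈ U <;> by_cases p2 : v ∈ U <;>
        simp [p1, p2, hu'.2, hv'.2] at q1 q2 ⊢ <;> omega

theorem sum_cut_le (Vs : Finset V) : ∀ es : List (Ed V), (∀ e ∈ es, e.c = 1) →
    ∑ x ∈ Vs, cut {x} es ≤ 2 * es.length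
  | [], _ => by simp [cut]
  | e :: es, h => by
    have ih := sum_cut_le Vs es fun e he => h e (by simp [he])
    simp only [cut, Finset.sum_add_distrib, h e (by simp), List.length_cons]
    have : ∑ x ∈ Vs, (if (e.a ∈ ({x} : Set V) ↔ e.b ∈ ({x} : Set V)) then 0 else 1) ≤
        ∑ x ∈ Vs, ((if e.a = x then 1 else 0) + (if e.b = x then 1 else 0)) := by
      refine Finset.sum_le_sum fun x _ => ?_
      by_cases p1 : e.a = x <;> by_cases p2 : e.b = x <;> simp [p1, p2]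
    rw [Finset.sum_add_distrib, Finset.sum_ite_eq, Finset.sum_ite_eq] at this
    have a1 : (if e.a ∈ Vs then 1 else 0) ≤ 1 := by split_ifs <;> omega
    have a2 : (if e.b ∈ Vs then 1 else 0) ≤ 1 := by split_ifs <;> omega
    omega

theorem card_le_length (Vs : Finset V) (es : List (Ed V)) (h : ∀ e ∈ es, e.c = 1)
    (h0 : 0 < es.length)
    (hcut : ∀ U : Set V, (∃ a ∈ Vs, a ∈ U) → (∃ b ∈ Vs, b ∉ U) → 3 ≤ cut U es) :
    Vs.card ≤ es.length := by
  by_cases h1 : Vs.card ≤ 1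
  · omega
  have : ∑ x ∈ Vs, 3 ≤ ∑ x ∈ Vs, cut {x} es := by
    refine Finset.sum_le_sum fun x hx => ?_
    obtain ⟨y, hy, hyx⟩ := Finset.exists_mem_ne (not_le.1 h1) x
    exact hcut {x} ⟨x, hx, rfl⟩ ⟨y, hy, hyx⟩
  have h2 := sum_cut_le Vs es h
  simp only [Finset.sum_const, smul_eq_mul] at this
  omega

/-- Replace the weights of an edge list by the terms of a sequence. -/
def att : List (Ed V) → (ℕ → ℂ) → List (Ed V)
  | [], _ => []
  | e :: es, w => ⟨e.a, e.b, w 0, e.c⟩ :: att es fun j => w (j + 1)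

/-- The finitely many shapes of forest functions of lists of length `k`. -/
def shapes : ℕ → Set ((ℕ → ℂ) → ℂ)
  | 0 => {fun _ => 1}
  | k + 1 => (fun p : ((ℕ → ℂ) → ℂ) × ((ℕ → ℂ) → ℂ) × Prop => fun w =>
      p.1 (fun j => w (j + 1)) + if p.2.2 then 0 else w 0 * p.2.1 fun j => w (j + 1)) ''
        (shapes k ×ˢ shapes k ×ˢ Set.univ)

theorem shapes_finite : ∀ k, (shapes k).Finite
  | 0 => Set.finite_singleton _
  | k + 1 => ((shapes_finite k).prod ((shapes_finite k).prod Set.finite_univ)).image _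

theorem shapes_cont : ∀ k, ∀ f ∈ shapes k, Continuous f
  | 0, f, h => by rw [show f = fun _ => 1 from h]; exact continuous_const
  | k + 1, f, h => by
    obtain ⟨⟨g1, g2, p⟩, ⟨h1, h2, -⟩, rfl⟩ := h
    have c1 := shapes_cont k g1 h1
    have c2 := shapes_cont k g2 h2
    have ct : Continuous fun (w : ℕ → ℂ) (j : ℕ) => w (j + 1) :=
      continuous_pi fun j => continuous_apply _
    by_cases q : p
    · simp only [q, if_true, add_zero]; exact c1.comp ct
    · simp only [q, if_false]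
      exact (c1.comp ct).add ((continuous_apply 0).mul (c2.comp ct))

theorem Fo_shape : ∀ (es : List (Ed V)) (r : V → V → Prop),
    (fun w => Fo (att es w) r) ∈ shapes es.length
  | [], _ => rfl
  | e :: es, r => ⟨⟨_, _, r e.a e.b⟩, ⟨Fo_shape es r, Fo_shape es (jn r e.a e.b), trivial⟩, rfl⟩

theorem att_exists (K : Set ℂ) (z : ℂ) (hz : z ∈ K) : ∀ es : List (Ed V), (∀ e ∈ es, e.w ∈ K) →
    ∃ w : ℕ → ℂ, (∀ j, w j ∈ K) ∧ att es w = es
  | [], _ => ⟨fun _ => z, fun _ => hz, rfl⟩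
  | e :: es, h => by
    obtain ⟨w, h1, h2⟩ := att_exists K z hz es fun e he => h e (by simp [he])
    refine ⟨fun j => Nat.casesOn j e.w w, fun j => ?_, ?_⟩
    · cases j with
      | zero => exact h e (by simp)
      | succ j => exact h1 j
    · simp only [att]
      exact congrArg _ h2

theorem att_mem : ∀ (es : List (Ed V)) (w : ℕ → ℂ), ∀ e ∈ att es w,
    ∃ e' ∈ es, ∃ j, e = ⟨e'.a, e'.b, w j, e'.c⟩
  | [], _, e, h => by simp [att] at h
  | e0 :: es, w, e, h => by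
    rcases List.mem_cons.1 h with rfl | h
    · exact ⟨e0, by simp, 0, rfl⟩
    · obtain ⟨e', h1, j, h2⟩ := att_mem es _ e h
      exact ⟨e', by simp [h1], j + 1, h2⟩

theorem cut_att (U : Set V) : ∀ (es : List (Ed V)) (w : ℕ → ℂ), cut U (att es w) = cut U es
  | [], _ => rfl
  | e :: es, w => by simp only [att, cut, cut_att U es]

theorem shapes_bound (k : ℕ) (K : Set ℂ) (hK : IsCompact K) : ∃ η : ℝ, 0 < η ∧
    ∀ f ∈ shapes k, (∀ w : ℕ → ℂ, (∀ j, w j ∈ K) → f w ≠ 0) →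
      ∀ w : ℕ → ℂ, (∀ j, w j ∈ K) → η ≤ ‖f w‖ := by
  have hC : IsCompact (Set.pi Set.univ fun _ : ℕ => K) := isCompact_univ_pi fun _ => hK
  have one : ∀ f ∈ shapes k, ∃ η : ℝ, 0 < η ∧ ((∀ w : ℕ → ℂ, (∀ j, w j ∈ K) → f w ≠ 0) →
      ∀ w : ℕ → ℂ, (∀ j, w j ∈ K) → η ≤ ‖f w‖) := by
    intro f hf
    by_cases q : ∀ w : ℕ → ℂ, (∀ j, w j ∈ K) → f w ≠ 0
    · obtain ⟨η, h1, h2⟩ := hC.exists_forall_le' (f := fun w => ‖f w‖) (a := 0)
        (shapes_cont k f hf).norm.continuousOn fun w hw => norm_pos_iff.2 (q w fun j => hw j trivial)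
      exact ⟨η, h1, fun _ w hw => h2 w fun j _ => hw j⟩
    · exact ⟨1, one_pos, fun p => absurd p q⟩
  choose! g g1 g2 using one
  obtain ⟨η, h1, h2⟩ : ∃ η : ℝ, 0 < η ∧ ∀ f ∈ shapes k, η ≤ g f := by
    by_cases q : (shapes k).Nonempty
    · obtain ⟨f, hf, hm⟩ := Set.exists_min_image _ g (shapes_finite k) q
      exact ⟨g f, g1 f hf, hm⟩
    · exact ⟨1, one_pos, fun f hf => absurd ⟨f, hf⟩ q⟩
  exact ⟨η, h1, fun f hf q w hw => (h2 f hf).trans (g2 f hf q w hw)⟩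

/-- The uniform lower bound. -/
theorem Fo_bound (t : ℕ) (M : ℝ) (hM : 1 ≤ M) : ∃ η : ℝ, 0 < η ∧
    ∀ (V : Type) (H : SimpleGraph V) (o : V → ℕ), Function.Injective o →
    (∀ x, H.IsClique {y | H.Adj x y ∧ o x < o y} ∧ Set.encard {y | H.Adj x y ∧ o x < o y} ≤ 2) →
    ∀ (Vs : Finset V) (es : List (Ed V)), es.length = t →
      (∀ e ∈ es, e.a ∈ Vs ∧ e.b ∈ Vs ∧ (e.a = e.b ∨ H.Adj e.a e.b) ∧ e.c = 1 ∧
        e.w.re ≤ -1 / 2 ∧ ‖e.w‖ ≤ M) →
      (∀ U : Set V, (∃ a ∈ Vs, a ∈ U) → (∃ b ∈ Vs, b ∉ U) → 3 ≤ cut U es) → η ≤ ‖Fo es Eq‖ := by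
  have hK : IsCompact (Metric.closedBall (0 : ℂ) M ∩ {w | w.re ≤ -1 / 2}) :=
    (isCompact_closedBall _ _).inter_right (isClosed_le Complex.continuous_re continuous_const)
  obtain ⟨η, h1, h2⟩ := shapes_bound t _ hK
  refine ⟨η, h1, fun V H o ho hH Vs es ht h hcut => ?_⟩
  obtain ⟨w, hw, he⟩ := att_exists (Metric.closedBall (0 : ℂ) M ∩ {w | w.re ≤ -1 / 2}) (-1)
    ⟨by simpa using hM, by norm_num⟩ es fun e he =>
      ⟨by simpa using (h e he).2.2.2.2.2, (h e he).2.2.2.2.1⟩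
  have := h2 _ (ht ▸ Fo_shape es Eq) (fun w hw => ?_) w hw
  · simpa only [he] using this
  refine Fo_ne_zero H o ho hH _ Vs _ rfl (fun e he => ?_) fun U p q => ?_
  · obtain ⟨e', q, j, rfl⟩ := att_mem es w e he
    obtain ⟨p1, p2, p3, p4, -⟩ := h e' q
    exact ⟨p1, p2, p3, Or.inr ⟨by simp [p4], (hw j).2, by simp [p4], by simp [p4]⟩⟩
  · rw [cut_att]; exact hcut U p q

end Pool.Agent.Lib.MP_7bc610_gt.Ht
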