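import Mathlib

/-!
The generating function of spanning forests of a weighted edge list, and its reductions.
-/

namespace Pool.Agent.Lib.MP_7bc610_gt.Ht

open Classical

variable {V V' : Type}

/-- Merge the classes of `a` and `b`. -/
def jn (r : V → V → Prop) (a b : V) (x y : V) : Prop :=
  r x y ∨ (r x a ∧ r b y) ∨ (r x b ∧ r a y)

theorem jn_equiv {r : V → V → Prop} (h : Equivalence r) (a b : V) : Equivalence (jn r a b) := by
  obtain ⟨h1, h2, h3⟩ := h
  refine ⟨fun x => Or.inl (h1 x), ?_, ?_⟩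
  · rintro x y (h | ⟨h, h'⟩ | ⟨h, h'⟩)
    · exact Or.inl (h2 h)
    · exact Or.inr (Or.inr ⟨h2 h', h2 h⟩)
    · exact Or.inr (Or.inl ⟨h2 h', h2 h⟩)
  · rintro x y z (h | ⟨h, h'⟩ | ⟨h, h'⟩) (g | ⟨g, g'⟩ | ⟨g, g'⟩)
    · exact Or.inl (h3 h g)
    · exact Or.inr (Or.inl ⟨h3 h g, g'⟩)
    · exact Or.inr (Or.inr ⟨h3 h g, g'⟩)
    · exact Or.inr (Or.inl ⟨h, h3 h' g⟩)
    · exact Or.inr (Or.inl ⟨h, g'⟩)
    · exact Or.inl (h3 h g')
    · exact Or.inr (Or.inr ⟨h, h3 h' g⟩)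
    · exact Or.inl (h3 h g')
    · exact Or.inr (Or.inr ⟨h, g'⟩)

theorem jn_self {r : V → V → Prop} (h : Equivalence r) (a b : V) : jn r a b a b :=
  Or.inr (Or.inl ⟨h.refl a, h.refl b⟩)

/-- `jn r a b` is the least equivalence relation above `r` that relates `a` and `b`. -/
theorem jn_le {r s : V → V → Prop} (hs : Equivalence s) {a b : V} (h : ∀ x y, r x y → s x y)
    (hab : s a b) : ∀ x y, jn r a b x y → s x y := by
  rintro x y (g | ⟨g, g'⟩ | ⟨g, g'⟩)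
  · exact h _ _ g
  · exact hs.trans (h _ _ g) (hs.trans hab (h _ _ g'))
  · exact hs.trans (h _ _ g) (hs.trans (hs.symm hab) (h _ _ g'))

theorem jn_swap (r : V → V → Prop) (a b : V) : jn r a b = jn r b a := by
  funext x y; simp only [jn]; apply propext; tauto

theorem jn_comm {r : V → V → Prop} (h : Equivalence r) (a b c d : V) :
    jn (jn r a b) c d = jn (jn r c d) a b := by
  have key : ∀ a b c d x y, jn (jn r a b) c d x y → jn (jn r c d) a b x y := by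
    intro a b c d
    have e := jn_equiv (jn_equiv h c d) a b
    refine jn_le e (jn_le e (fun x y g => Or.inl (Or.inl g)) (jn_self (jn_equiv h c d) a b)) ?_
    exact Or.inl (jn_self h c d)
  funext x y
  exact propext ⟨key a b c d x y, key c d a b x y⟩

/-- An edge with its ends, a complex weight and a capacity. -/
structure Ed (V : Type) where
  a : V
  b : V
  w : ℂ
  c : ℕ

/-- The sum over the forests in an edge list (vertices related by `r` being identified) of the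
product of the weights. -/
noncomputable def Fo : List (Ed V) → (V → V → Prop) → ℂ
  | [], _ => 1
  | e :: es, r => Fo es r + if r e.a e.b then 0 else e.w * Fo es (jn r e.a e.b)

/-- Total capacity of the edges between `U` and its complement. -/
noncomputable def cut (U : Set V) : List (Ed V) → ℕ
  | [] => 0
  | e :: es => (if (e.a ∈ U ↔ e.b ∈ U) then 0 else e.c) + cut U es

theorem Fo_map (f : V → V') (A : Set V) : ∀ (es : List (Ed V)) (r : V → V → Prop)
    (s : V' → V' → Prop), (∀ e ∈ es, e.a ∈ A ∧ e.b ∈ A) →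
    (∀ x ∈ A, ∀ y ∈ A, r x y ↔ s (f x) (f y)) →
    Fo es r = Fo (es.map fun e => ⟨f e.a, f e.b, e.w, e.c⟩) s
  | [], _, _, _, _ => rfl
  | e :: es, r, s, h, g => by
    obtain ⟨ha, hb⟩ := h e (by simp)
    have h' : ∀ e ∈ es, e.a ∈ A ∧ e.b ∈ A := fun e he => h e (by simp [he])
    simp only [List.map_cons, Fo]
    rw [Fo_map f A es r s h' g, Fo_map f A es (jn r e.a e.b) (jn s (f e.a) (f e.b)) h' ?_]
    · simp only [g _ ha _ hb]
    · intro x hx y hy
      simp only [jn, g _ hx _ hy, g _ hx _ ha, g _ hx _ hb, g _ ha _ hy, g _ hb _ hy]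

theorem Fo_congr (A : Set V) (es : List (Ed V)) (r s : V → V → Prop)
    (h : ∀ e ∈ es, e.a ∈ A ∧ e.b ∈ A) (g : ∀ x ∈ A, ∀ y ∈ A, r x y ↔ s x y) :
    Fo es r = Fo es s := by
  have := Fo_map id A es r s h g
  simpa using this

theorem cut_congr (A U W : Set V) (g : ∀ x ∈ A, x ∈ U ↔ x ∈ W) : ∀ (es : List (Ed V)),
    (∀ e ∈ es, e.a ∈ A ∧ e.b ∈ A) → cut U es = cut W es
  | [], _ => rfl
  | e :: es, h => by
    obtain ⟨ha, hb⟩ := h e (by simp)
    simp only [cut, g _ ha, g _ hb, cut_congr A U W g es fun e he => h e (by simp [he])]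

/-- Two edge lists with the same forest function and the same cuts. -/
def Eqv (l m : List (Ed V)) : Prop :=
  (∀ r, Equivalence r → Fo l r = Fo m r) ∧ ∀ U, cut U l = cut U m

theorem Eqv.rfl' (l : List (Ed V)) : Eqv l l := ⟨fun _ _ => rfl, fun _ => rfl⟩

theorem Eqv.trans' {l m n : List (Ed V)} (h : Eqv l m) (g : Eqv m n) : Eqv l n :=
  ⟨fun r e => (h.1 r e).trans (g.1 r e), fun U => (h.2 U).trans (g.2 U)⟩

theorem Eqv.cons (e : Ed V) {l m : List (Ed V)} (h : Eqv l m) : Eqv (e :: l) (e :: m) :=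
  ⟨fun r g => by simp only [Fo, h.1 r g, h.1 _ (jn_equiv g e.a e.b)],
   fun U => by simp only [cut, h.2 U]⟩

theorem Eqv.swap (e f : Ed V) (l : List (Ed V)) : Eqv (e :: f :: l) (f :: e :: l) := by
  refine ⟨fun r g => ?_, fun U => by simp only [cut]; omega⟩
  simp only [Fo]
  have hc := jn_comm g e.a e.b f.a f.b
  by_cases h1 : r e.a e.b <;> by_cases h2 : r f.a f.b
  · simp [h1, h2]
  · have : jn r f.a f.b e.a e.b := Or.inl h1
    simp [h1, h2, this]
  · have : jn r e.a e.b f.a f.b := Or.inl h2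
    simp [h1, h2, this]
  · have : jn r e.a e.b f.a f.b ↔ jn r f.a f.b e.a e.b := by
      simp only [jn, h1, h2, false_or]
      constructor
      · rintro (⟨p, q⟩ | ⟨p, q⟩)
        · exact Or.inl ⟨g.symm p, g.symm q⟩
        · exact Or.inr ⟨q, p⟩
      · rintro (⟨p, q⟩ | ⟨p, q⟩)
        · exact Or.inl ⟨g.symm p, g.symm q⟩
        · exact Or.inr ⟨q, p⟩
    by_cases h3 : jn r f.a f.b e.a e.b
    · simp only [h1, h2, h3, this.2 h3, if_true, if_false]; ring
    · simp only [h1, h2, h3, mt this.1 h3, if_false, hc]; ring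

theorem Eqv.flip (a b : V) (w : ℂ) (c : ℕ) (l : List (Ed V)) :
    Eqv (⟨a, b, w, c⟩ :: l) (⟨b, a, w, c⟩ :: l) := by
  refine ⟨fun r g => ?_, fun U => by simp only [cut, iff_comm]⟩
  have : r a b ↔ r b a := ⟨g.symm, g.symm⟩
  simp only [Fo, this, jn_swap r a b]

theorem Eqv.loop (a : V) (w : ℂ) (c : ℕ) (l : List (Ed V)) : Eqv (⟨a, a, w, c⟩ :: l) l :=
  ⟨fun r g => by simp [Fo, g.refl a], fun U => by simp [cut]⟩

theorem Eqv.zero (a b : V) (l : List (Ed V)) : Eqv l (⟨a, b, 0, 0⟩ :: l) :=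
  ⟨fun r g => by simp [Fo], fun U => by simp [cut]⟩

theorem Eqv.par (a b : V) (w w' : ℂ) (c c' : ℕ) (l : List (Ed V)) :
    Eqv (⟨a, b, w, c⟩ :: ⟨a, b, w', c'⟩ :: l) (⟨a, b, w + w', c + c'⟩ :: l) := by
  refine ⟨fun r g => ?_, fun U => ?_⟩
  · by_cases h : r a b
    · simp [Fo, h]
    · simp only [Fo, h, jn_self g a b, if_true, if_false]; ring
  · simp only [cut]; split_ifs <;> omega

/-- The admissible weights for an edge of capacity `c`. -/
def Cl (w : ℂ) (c : ℕ) : Prop :=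
  (c = 0 ∧ w = 0) ∨
    (1 ≤ c ∧ w.re ≤ -1 / 2 ∧ (2 ≤ c → w.re < -1 / 2) ∧ (3 ≤ c → w ≠ -1))

theorem Cl.add {w w' : ℂ} {c c' : ℕ} (h : Cl w c) (g : Cl w' c') : Cl (w + w') (c + c') := by
  rcases h with ⟨rfl, rfl⟩ | ⟨h1, h2, h3, h4⟩
  · simpa using g
  rcases g with ⟨rfl, rfl⟩ | ⟨g1, g2, g3, g4⟩
  · simp only [add_zero]; exact Or.inr ⟨h1, h2, h3, h4⟩
  refine Or.inr ⟨by omega, ?_, fun _ => ?_, fun hc e => ?_⟩
  · simp only [Complex.add_re]; linarith
  · simp only [Complex.add_re]; linarith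
  · have := congrArg Complex.re e
    simp only [Complex.add_re, Complex.neg_re, Complex.one_re] at this
    rcases (by omega : 2 ≤ c ∨ 2 ≤ c') with q | q
    · linarith [h3 q]
    · linarith [g3 q]

theorem re_le_iff (w : ℂ) : w.re ≤ -1 / 2 ↔ ‖w + 1‖ ≤ ‖w‖ := by
  rw [← sq_le_sq₀ (norm_nonneg _) (norm_nonneg _), Complex.sq_norm, Complex.sq_norm,
    Complex.normSq_apply, Complex.normSq_apply]
  simp only [Complex.add_re, Complex.add_im, Complex.one_re, Complex.one_im, add_zero]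
  constructor <;> intro h <;> nlinarith

theorem re_lt_iff (w : ℂ) : w.re < -1 / 2 ↔ ‖w + 1‖ < ‖w‖ := by
  rw [← sq_lt_sq₀ (norm_nonneg _) (norm_nonneg _), Complex.sq_norm, Complex.sq_norm,
    Complex.normSq_apply, Complex.normSq_apply]
  simp only [Complex.add_re, Complex.add_im, Complex.one_re, Complex.one_im, add_zero]
  constructor <;> intro h <;> nlinarith

theorem Cl.ser {w w' : ℂ} {c c' : ℕ} (h : Cl w c) (g : Cl w' c') (hD : 1 + w + w' ≠ 0) :
    Cl (w * w' / (1 + w + w')) (min c c') := by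
  rcases h with ⟨rfl, rfl⟩ | ⟨h1, h2, h3, h4⟩
  · exact Or.inl ⟨by simp, by simp⟩
  rcases g with ⟨rfl, rfl⟩ | ⟨g1, g2, g3, g4⟩
  · exact Or.inl ⟨by simp, by simp⟩
  have e : w * w' / (1 + w + w') + 1 = (w + 1) * (w' + 1) / (1 + w + w') := by
    field_simp; ring
  have hp : 0 < ‖1 + w + w'‖ := norm_pos_iff.2 hD
  refine Or.inr ⟨by omega, ?_, fun hc => ?_, fun hc q => ?_⟩
  · rw [re_le_iff] at *
    rw [e, norm_div, norm_div, norm_mul, norm_mul]
    gcongr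
  · have h3 := h3 (by omega)
    have g3 := g3 (by omega)
    rw [re_lt_iff] at *
    rw [e, norm_div, norm_div, norm_mul, norm_mul]
    exact div_lt_div_of_pos_right
      (mul_lt_mul'' h3 g3 (norm_nonneg _) (norm_nonneg _)) hp
  · rw [q, neg_add_cancel, eq_comm, div_eq_zero_iff, mul_eq_zero] at e
    rcases e with (e | e) | e
    · exact h4 (by omega) (eq_neg_of_add_eq_zero_left e)
    · exact g4 (by omega) (eq_neg_of_add_eq_zero_left e)
    · exact hD e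

/-- Collect the edges at `x` into two edges. -/
theorem normal (x u v : V) : ∀ (es : List (Ed V)) (w1 w2 : ℂ) (c1 c2 : ℕ), Cl w1 c1 → Cl w2 c2 →
    (∀ e ∈ es, Cl e.w e.c) →
    (∀ e ∈ es, (e.a = x → e.b = x ∨ e.b = u ∨ e.b = v) ∧ (e.b = x → e.a = x ∨ e.a = u ∨ e.a = v)) →
    ∃ (w1' w2' : ℂ) (c1' c2' : ℕ) (rest : List (Ed V)), Cl w1' c1' ∧ Cl w2' c2' ∧
      (∀ e ∈ rest, e ∈ es ∧ e.a ≠ x ∧ e.b ≠ x) ∧
      Eqv (⟨x, u, w1, c1⟩ :: ⟨x, v, w2, c2⟩ :: es) (⟨x, u, w1', c1'⟩ :: ⟨x, v, w2', c2'⟩ :: rest)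
  | [], w1, w2, c1, c2, h1, h2, _, _ => ⟨w1, w2, c1, c2, [], h1, h2, by simp, Eqv.rfl' _⟩
  | ⟨a, b, w, c⟩ :: es, w1, w2, c1, c2, h1, h2, h3, h4 => by
    have h3' : ∀ e ∈ es, Cl e.w e.c := fun e he => h3 e (by simp [he])
    have h4' := fun e (he : e ∈ es) => h4 e (List.mem_cons_of_mem _ he)
    have hw : Cl w c := h3 ⟨a, b, w, c⟩ (by simp)
    obtain ⟨p, q⟩ := h4 ⟨a, b, w, c⟩ (by simp)
    simp only at p q
    have main : ∀ b, b = x ∨ b = u ∨ b = v →
        ∃ (w1' w2' : ℂ) (c1' c2' : ℕ) (rest : List (Ed V)), Cl w1' c1' ∧ Cl w2' c2' ∧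
        (∀ e ∈ rest, e ∈ es ∧ e.a ≠ x ∧ e.b ≠ x) ∧
        Eqv (⟨x, u, w1, c1⟩ :: ⟨x, v, w2, c2⟩ :: ⟨x, b, w, c⟩ :: es)
          (⟨x, u, w1', c1'⟩ :: ⟨x, v, w2', c2'⟩ :: rest) := by
      rintro b (rfl | rfl | rfl)
      · obtain ⟨y1, y2, d1, d2, rest, k1, k2, k3, k4⟩ := normal b u v es w1 w2 c1 c2 h1 h2 h3' h4'
        exact ⟨y1, y2, d1, d2, rest, k1, k2, k3,
          (((Eqv.loop b w c es).cons _).cons _).trans' k4⟩
      · obtain ⟨y1, y2, d1, d2, rest, k1, k2, k3, k4⟩ :=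
          normal x b v es (w1 + w) w2 (c1 + c) c2 (h1.add hw) h2 h3' h4'
        exact ⟨y1, y2, d1, d2, rest, k1, k2, k3,
          (((Eqv.swap _ _ es).cons _).trans' (Eqv.par _ _ _ _ _ _ _)).trans' k4⟩
      · obtain ⟨y1, y2, d1, d2, rest, k1, k2, k3, k4⟩ :=
          normal x u b es w1 (w2 + w) c1 (c2 + c) h1 (h2.add hw) h3' h4'
        exact ⟨y1, y2, d1, d2, rest, k1, k2, k3,
          ((Eqv.par _ _ _ _ _ _ _).cons _).trans' k4⟩
    by_cases ha : a = x
    · subst ha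
      obtain ⟨y1, y2, d1, d2, rest, k1, k2, k3, k4⟩ := main b (p rfl)
      exact ⟨y1, y2, d1, d2, rest, k1, k2,
        fun e he => ⟨List.mem_cons_of_mem _ (k3 e he).1, (k3 e he).2⟩, k4⟩
    by_cases hb : b = x
    · subst hb
      obtain ⟨y1, y2, d1, d2, rest, k1, k2, k3, k4⟩ := main a (q rfl)
      exact ⟨y1, y2, d1, d2, rest, k1, k2,
        fun e he => ⟨List.mem_cons_of_mem _ (k3 e he).1, (k3 e he).2⟩,
        (((Eqv.flip a b w c es).cons _).cons _).trans' k4⟩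
    obtain ⟨y1, y2, d1, d2, rest, k1, k2, k3, k4⟩ := normal x u v es w1 w2 c1 c2 h1 h2 h3' h4'
    refine ⟨y1, y2, d1, d2, ⟨a, b, w, c⟩ :: rest, k1, k2, ?_, ?_⟩
    · intro e he
      rcases List.mem_cons.1 he with rfl | he
      · exact ⟨by simp, ha, hb⟩
      · exact ⟨List.mem_cons_of_mem _ (k3 e he).1, (k3 e he).2⟩
    · exact (((Eqv.swap _ _ _).cons _).trans' (Eqv.swap _ _ _)).trans'
        ((k4.cons _).trans' ((Eqv.swap _ _ _).trans' ((Eqv.swap _ _ _).cons _)))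

/-- Removing a vertex of degree two. -/
theorem Fo_elim (x u v : V) (hu : u ≠ x) (hv : v ≠ x) (w1 w2 : ℂ) (c1 c2 c : ℕ)
    (rest : List (Ed V)) (h : ∀ e ∈ rest, e.a ≠ x ∧ e.b ≠ x) (hD : 1 + w1 + w2 ≠ 0) :
    Fo (⟨x, u, w1, c1⟩ :: ⟨x, v, w2, c2⟩ :: rest) Eq =
      (1 + w1 + w2) * Fo (⟨u, v, w1 * w2 / (1 + w1 + w2), c⟩ :: rest) Eq := by
  have e1 : ∀ u, Fo rest (jn Eq x u) = Fo rest Eq := fun u =>
    Fo_congr {y | y ≠ x} rest _ _ h fun a ha b hb => by
      simp only [Set.mem_ofPred_eq] at ha hb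
      simp [jn, ha, hb.symm]
  have e2 : Fo rest (jn (jn Eq x u) x v) = Fo rest (jn Eq u v) :=
    Fo_congr {y | y ≠ x} rest _ _ h fun a ha b hb => by
      simp only [Set.mem_ofPred_eq] at ha hb
      simp [jn, ha, hb.symm, hu.symm, hv, hv.symm]
  have e3 : jn Eq x u x v ↔ u = v := by simp [jn, hv.symm, hu.symm]
  simp only [Fo, e1, e2, e3, hu.symm, hv.symm, if_false]
  by_cases q : u = v
  · simp only [q, if_true]; ring
  · simp only [q, if_false]; field_simp; ring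

end Pool.Agent.Lib.MP_7bc610_gt.Ht
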