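import Pool.Agent.Lib.MP_7bc610_gt.Ht.Ana
import Pool.Agent.Lib.MP_7bc610_gt.Ht.Elim

/-!
Assembly: the bracket of a sufficiently twisted diagram is not a unit.
-/

namespace Pool.Agent.Lib.MP_7bc610_gt.Ht

open Classical Relation LaurentPolynomial

theorem arcR_empty (T : Word) : ArcR T ∅ T.length = Arc T := by
  funext x y
  refine propext ⟨fun g => ?_, fun g => ?_⟩
  · cases g with
    | left l j i k a b c => exact .left l j i k b c
    | right l j i k a b c d => exact .right l j i k b c d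
    | top l i k a b c d => exact .top l i k c d
    | bottom l i k a b c d => exact .bottom l i k c d
    | vert l j i k a b c d => simp at b
  · cases g with
    | left l j i k b c => exact .left l j i k (List.getElem?_eq_some_iff.1 b).1 b c
    | right l j i k b c d => exact .right l j i k (List.getElem?_eq_some_iff.1 b).1 b c d
    | top l i k c d => exact .top l i k (List.getElem?_eq_some_iff.1 c).1 (by simp) c d
    | bottom l i k c d => exact .bottom l i k (List.getElem?_eq_some_iff.1 c).1 (by simp) c d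

theorem mem_cl (T : Word) (l : ℕ) : l ∈ cl T 0 T.length ↔ l ∈ crossings T := by
  simp only [cl, List.mem_filter, List.mem_range'_1, decide_eq_true_eq]
  refine ⟨fun g => g.2, fun g => ⟨⟨by omega, ?_⟩, g⟩⟩
  obtain ⟨e, i, h⟩ := g
  simpa using (List.getElem?_eq_some_iff.1 h).1

theorem nodup_cl (T : Word) (h k : ℕ) : (cl T h k).Nodup := (List.nodup_range' ..).filter _

theorem ncard_le_cut {V : Type} (U : Set V) (ed : ℕ → Ed V) (hc : ∀ l, (ed l).c = 1) :
    ∀ es : List ℕ, {l | l ∈ es ∧ ¬ ((ed l).a ∈ U ↔ (ed l).b ∈ U)}.ncard ≤ cut U (es.map ed)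
  | [] => by simp
  | a :: es => by
    have ih := ncard_le_cut U ed hc es
    have fin : {l | l ∈ es ∧ ¬ ((ed l).a ∈ U ↔ (ed l).b ∈ U)}.Finite :=
      (List.finite_toSet es).subset fun l hl => hl.1
    simp only [List.map_cons, cut, hc]
    split_ifs with c
    · refine le_trans (Set.ncard_le_ncard ?_ fin) (by omega)
      rintro l ⟨p, q⟩
      rcases List.mem_cons.1 p with rfl | p
      · exact absurd c q
      · exact ⟨p, q⟩
    · refine le_trans (Set.ncard_le_ncard ?_ (fin.insert a))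
        ((Set.ncard_insert_le _ _).trans (by omega))
      rintro l ⟨p, q⟩
      rcases List.mem_cons.1 p with rfl | p
      · exact Or.inl rfl
      · exact Or.inr ⟨p, q⟩

theorem norm_prod_ge (f : ℕ → ℂ) (δ : ℝ) (h0 : 0 ≤ δ) : ∀ es : List ℕ, (∀ l ∈ es, δ ≤ ‖f l‖) →
    δ ^ es.length ≤ ‖(es.map f).prod‖
  | [], _ => by simp
  | a :: es, h => by
    rw [List.map_cons, List.prod_cons, norm_mul, List.length_cons, pow_succ']
    exact mul_le_mul (h a (by simp)) (norm_prod_ge f δ h0 es fun l hl => h l (by simp [hl]))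
      (by positivity) (norm_nonneg _)

theorem norm_bound (f : ℤ[T;T⁻¹]) : ∃ K : ℝ, 0 ≤ K ∧ ∀ φ : ℤ[T;T⁻¹] →+* ℂ,
    (∀ k, ‖φ (T k)‖ = 1) → ‖φ f‖ ≤ K := by
  induction f using LaurentPolynomial.induction_on' with
  | add p q hp hq =>
    obtain ⟨K, h0, h1⟩ := hp
    obtain ⟨K', g0, g1⟩ := hq
    refine ⟨K + K', by linarith, fun φ h => ?_⟩
    rw [map_add]
    exact (norm_add_le _ _).trans (add_le_add (h1 φ h) (g1 φ h))
  | C_mul_T n a =>
    refine ⟨‖(a : ℂ)‖, norm_nonneg _, fun φ h => ?_⟩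
    rw [map_mul, norm_mul, h, mul_one, eq_intCast (C : ℤ →+* ℤ[T;T⁻¹]) a, map_intCast]

theorem main (t : ℕ) (f : ℤ[T;T⁻¹]) : ∃ N : ℕ, ∀ (T : Word) (n : ℕ → ℕ), Valid 0 T 0 →
    (crossings T).ncard = t → 0 < t → ThreeConnected T → TreewidthTwo (stateGraph T) →
    (∀ l ∈ crossings T, N ≤ n l) → ∀ (c : ℕ) (k : ℤ),
      stateSum (twist T n) ≠ loopVal * (loopVal ^ c * LaurentPolynomial.T k * f) ∧
      stateSum (twist T n) ≠ -(loopVal * (loopVal ^ c * LaurentPolynomial.T k * f)) := by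
  obtain ⟨K, K0, hK⟩ := norm_bound f
  obtain ⟨δ, hδ⟩ : ∃ δ : ℝ, δ = (1 / 4 : ℝ) ^ t / 2 := ⟨_, rfl⟩
  have d0 : 0 < δ := by rw [hδ]; positivity
  have d1 : δ ≤ 1 := by
    have : (1 / 4 : ℝ) ^ t ≤ 1 := pow_le_one₀ (by norm_num) (by norm_num)
    linarith
  obtain ⟨η, e0, hη⟩ := Fo_bound t δ⁻¹ (one_le_inv_iff₀.2 ⟨d0, d1⟩)
  obtain ⟨C, hC⟩ : ∃ C : ℝ, C = K + δ ^ t * (1 + δ⁻¹) ^ t := ⟨_, rfl⟩
  have C0 : 0 < C := by rw [hC]; positivity
  obtain ⟨N, hN⟩ := exists_angle (min 1 (δ ^ t * η / (2 * C))) (by positivity)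
  refine ⟨N, fun T n v ht t0 h3 ⟨H, o, hG, ho, hH⟩ hn c k => ?_⟩
  have hs : crossings T = ↑(cl T 0 T.length).toFinset := by
    ext l; simp [mem_cl]
  have hcard : (cl T 0 T.length).toFinset.card = t := by rw [← ht, hs, Set.ncard_coe_finset]
  have hlen : (cl T 0 T.length).length = t := by
    rw [← hcard, List.toFinset_card_of_nodup (nodup_cl _ _ _)]
  obtain ⟨θ, θ0, θ1, hθ⟩ := hN n (cl T 0 T.length).toFinset fun l hl => hn l (by rw [hs]; exact hl)
  rw [hcard, ← hδ] at hθ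
  obtain ⟨φ, φ1, φ2, φ3⟩ := exists_eval θ
  have θ2 : θ ≤ 1 := θ1.trans (min_le_left _ _)
  have θ3 : θ ≤ δ ^ t * η / (2 * C) := θ1.trans (min_le_right _ _)
  have n1 : ‖φ loopVal‖ ≤ θ := by
    rw [φ2]
    simpa [abs_of_pos θ0] using Real.norm_exp_I_mul_ofReal_sub_one_le (x := θ)
  have n0 : 0 < ‖φ loopVal‖ := by
    rw [φ2]
    linarith [chord θ0.le θ2]
  have hu : ∀ l ∈ cl T 0 T.length, δ ≤ ‖xx φ (sg T l) ^ n l - 1‖ := fun l hl => by
    rw [(φ3 _ _).2]; exact hθ l (by simpa using hl)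
  have hu0 : ∀ l ∈ cl T 0 T.length, xx φ (sg T l) ^ n l - 1 ≠ 0 := fun l hl =>
    norm_pos_iff.1 (d0.trans_le (hu l hl))
  have hw : ∀ l ∈ cl T 0 T.length, ‖(xx φ (sg T l) ^ n l - 1)⁻¹‖ ≤ δ⁻¹ := fun l hl => by
    rw [norm_inv]; exact inv_anti₀ d0 (hu l hl)
  obtain ⟨B, hB, hB'⟩ := lowest v (φ loopVal) (n1.trans θ2)
    (fun l => al φ (sg T l) ^ n l * (xx φ (sg T l) ^ n l - 1))
    (fun l => al φ (sg T l) ^ n l * φ loopVal) (fun l => (xx φ (sg T l) ^ n l - 1)⁻¹) δ⁻¹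
    (cl T 0 T.length) ∅ (nodup_cl _ _ _)
    (fun l hl => ⟨(mem_cl T l).1 hl, by simp, by have := hu0 l hl; field_simp, hw l hl⟩) (by simp)
  rw [← expand φ v n, hlen] at hB
  rw [hlen] at hB'
  have hprod := norm_prod_ge (fun l => al φ (sg T l) ^ n l * (xx φ (sg T l) ^ n l - 1)) δ d0.le
    (cl T 0 T.length) fun l hl => by
      rw [norm_mul, norm_pow, al, φ1, one_pow, one_mul]; exact hu l hl
  rw [hlen] at hprod
  generalize hwd : (fun l => (xx φ (sg T l) ^ n l - 1)⁻¹) = w at hB hB'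
  have hfin : (Quot.mk (Arc T) '' Pts T T.length).Finite := (pts_finite _ _).image _
  have hF := Fo_map (Quot.mk (Arc T)) Set.univ ((cl T 0 T.length).map (edge T w)) (con T ∅) Eq
    (fun _ _ => ⟨trivial, trivial⟩) fun x _ y _ => by rw [con, arcR_empty]; exact Quot.eq.symm
  rw [List.map_map] at hF
  generalize hed : ((fun e : Ed (ℕ × ℕ) => (⟨Quot.mk (Arc T) e.a, Quot.mk (Arc T) e.b, e.w, e.c⟩ :
    Ed (Quot (Arc T)))) ∘ edge T w) = ed at hF
  have hed' : ∀ l e i, T[l]? = some (Kind.cr e, i) →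
      ed l = ⟨Quot.mk (Arc T) (l, i), Quot.mk (Arc T) (l + 1, i), w l, 1⟩ := fun l e i h => by
    rw [← hed]; simp [edge, ps, h]
  have hcut : ∀ U : Set (Quot (Arc T)), (∃ a ∈ hfin.toFinset, a ∈ U) →
      (∃ b ∈ hfin.toFinset, b ∉ U) → 3 ≤ cut U ((cl T 0 T.length).map ed) := by
    rintro U ⟨a, ha, aU⟩ ⟨b, hb, bU⟩
    obtain ⟨⟨l, j⟩, ⟨p1, p2⟩, rfl⟩ := (Set.Finite.mem_toFinset _).1 ha
    obtain ⟨⟨l', j'⟩, ⟨q1, q2⟩, rfl⟩ := (Set.Finite.mem_toFinset _).1 hb
    refine (h3 U ⟨l, j, p1, p2, aU⟩ ⟨l', j', q1, q2, bU⟩).trans (le_trans (Set.ncard_le_ncard ?_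
      ((List.finite_toSet _).subset fun l hl => hl.1))
      (ncard_le_cut U ed (fun l => by rw [← hed]; rfl) _))
    rintro l ⟨e, i, h, g⟩
    refine ⟨(mem_cl T l).2 ⟨e, i, h⟩, ?_⟩
    rw [hed' l e i h]
    tauto
  have hL : circ T ∅ ≤ t := by
    have := card_le_length hfin.toFinset ((cl T 0 T.length).map ed)
      (fun e he => by
        obtain ⟨l, _, rfl⟩ := List.mem_map.1 he
        rw [← hed]; rfl) (by rw [List.length_map, hlen]; exact t0) hcut
    rwa [List.length_map, hlen, ← Set.ncard_eq_toFinset_card _ hfin, ← ncls_quot,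
      ← arcR_empty] at this
  have hlow := hη _ H o ho hH hfin.toFinset ((cl T 0 T.length).map ed)
    (by rw [List.length_map, hlen]) (fun e he => by
      obtain ⟨l, hl, rfl⟩ := List.mem_map.1 he
      obtain ⟨e, i, h⟩ := (mem_cl T l).1 hl
      obtain ⟨v1, v2⟩ := valid_at T 0 0 l _ i v h
      simp only [Kind.inp, Kind.out] at v1 v2
      have hlt : l < T.length := (List.getElem?_eq_some_iff.1 h).1
      rw [hed' l e i h]
      refine ⟨(Set.Finite.mem_toFinset _).2 ⟨(l, i), ⟨hlt.le, by simp only; omega⟩, rfl⟩,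
        (Set.Finite.mem_toFinset _).2 ⟨(l + 1, i), ⟨hlt, by simp only; omega⟩, rfl⟩,
        ?_, rfl, ?_, ?_⟩
      · refine or_iff_not_imp_left.2 fun q => hG ?_
        exact (SimpleGraph.fromRel_adj _ _ _).2 ⟨q, Or.inl ⟨l, e, i, h, rfl, rfl⟩⟩
      · rw [re_le_iff, ← hwd]
        have := hu0 l hl
        rw [show (xx φ (sg T l) ^ n l - 1)⁻¹ + 1 =
          xx φ (sg T l) ^ n l * (xx φ (sg T l) ^ n l - 1)⁻¹ by field_simp; ring,
          norm_mul, (φ3 _ _).1, one_mul]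
      · rw [← hwd]; exact hw l hl) hcut
  rw [← hF] at hlow
  have key : ¬ ‖φ (stateSum (twist T n))‖ ≤ ‖φ loopVal‖ * K := by
    intro q
    have a1 := congrArg norm hB
    rw [norm_mul, norm_mul, norm_mul, norm_pow, norm_pow] at a1
    generalize Fo ((cl T 0 T.length).map (edge T w)) (con T ∅) = F at *
    have a2 : η - ‖φ loopVal‖ * (1 + δ⁻¹) ^ t ≤ ‖F + φ loopVal * B‖ := by
      have b1 := norm_sub_le (F + φ loopVal * B) (φ loopVal * B)
      rw [add_sub_cancel_right, norm_mul] at b1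
      have b2 : ‖φ loopVal‖ * ‖B‖ ≤ ‖φ loopVal‖ * (1 + δ⁻¹) ^ t :=
        mul_le_mul_of_nonneg_left (by linarith [norm_nonneg F]) n0.le
      linarith
    have a3 : ‖φ loopVal‖ ^ t ≤ ‖φ loopVal‖ ^ circ T ∅ :=
      pow_le_pow_of_le_one n0.le (n1.trans θ2) hL
    have a4 : 0 < ‖φ loopVal‖ ^ circ T ∅ := pow_pos n0 _
    have a5 : δ ^ t * ‖F + φ loopVal * B‖ ≤ ‖φ loopVal‖ * K := by
      refine le_of_mul_le_mul_left ?_ a4
      have b1 := mul_le_mul_of_nonneg_right hprod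
        (mul_nonneg a4.le (norm_nonneg (F + φ loopVal * B)))
      have b2 := mul_le_mul a3 q (norm_nonneg _) a4.le
      linarith
    have a6 := mul_le_mul_of_nonneg_left a2 (pow_pos d0 t).le
    have a7 : ‖φ loopVal‖ * C ≤ δ ^ t * η / 2 := by
      have := mul_le_mul_of_nonneg_right (n1.trans θ3) C0.le
      rwa [show δ ^ t * η / (2 * C) * C = δ ^ t * η / 2 by field_simp] at this
    have a8 : 0 < δ ^ t * η := by positivity
    rw [hC] at a7
    nlinarith
  have last : ‖φ (loopVal * (loopVal ^ c * LaurentPolynomial.T k * f))‖ ≤ ‖φ loopVal‖ * K := by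
    rw [map_mul, map_mul, map_mul, map_pow, norm_mul, norm_mul, norm_mul, norm_pow, φ1, mul_one]
    refine mul_le_mul_of_nonneg_left ?_ n0.le
    exact (mul_le_of_le_one_left (norm_nonneg _) (pow_le_one₀ n0.le (n1.trans θ2))).trans
      (hK φ φ1)
  constructor <;> intro q <;> apply key <;> rw [q]
  · exact last
  · rw [map_neg, norm_neg]; exact last

end Pool.Agent.Lib.MP_7bc610_gt.Ht
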