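import Pool.Agent.Lib.MP_7bc610_gt.Ht.Cls
import Pool.Agent.Lib.MP_7bc610_gt.Ht.Defs

/-!
One step of the sweep: how connectivity and the number of classes change across one piece.
-/

namespace Pool.Agent.Lib.MP_7bc610_gt.Ht

open Classical Relation

/-- The arcs of one piece between heights `h` and `h + 1`: `n` strands below, `p` of them ending
and `q` new ones starting at position `i`. -/
def Piece (h n i p q : ℕ) (x y : ℕ × ℕ) : Prop :=
  (p = 2 ∧ x = (h, i) ∧ y = (h, i + 1)) ∨ (q = 2 ∧ x = (h + 1, i) ∧ y = (h + 1, i + 1)) ∨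
    (∃ j, j < i ∧ x = (h, j) ∧ y = (h + 1, j)) ∨
    (∃ j, i + p ≤ j ∧ j < n ∧ x = (h, j) ∧ y = (h + 1, j - p + q))

/-- Push the points of height `h + 1` down along the strands. -/
def proj (h n i p q : ℕ) (x : ℕ × ℕ) : ℕ × ℕ :=
  if x.1 = h + 1 then
    (if x.2 < i then (h, x.2) else if x.2 < i + q then (h + 1, i)
      else if x.2 < n - p + q then (h, x.2 - q + p) else x)
  else x

theorem proj_low {h n i p q : ℕ} {x : ℕ × ℕ} (hx : x.1 ≤ h) : proj h n i p q x = x := by
  simp only [proj]; rw [if_neg (by omega)]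

/-- Connectivity after the maximum of the piece, if there is one. -/
def topR (E : ℕ × ℕ → ℕ × ℕ → Prop) (h i p : ℕ) : ℕ × ℕ → ℕ × ℕ → Prop :=
  if p = 2 then jn (EqvGen E) (h, i) (h, i + 1) else EqvGen E

theorem topR_equiv (E : ℕ × ℕ → ℕ × ℕ → Prop) (h i p : ℕ) : Equivalence (topR E h i p) := by
  unfold topR
  split_ifs
  · exact jn_equiv (EqvGen.is_equivalence E) _ _
  · exact EqvGen.is_equivalence E

theorem topR_le {E s : ℕ × ℕ → ℕ × ℕ → Prop} (hs : Equivalence s) {h i p : ℕ}
    (h1 : ∀ x y, E x y → s x y) (h2 : p = 2 → s (h, i) (h, i + 1)) :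
    ∀ x y, topR E h i p x y → s x y := by
  unfold topR
  split_ifs with q
  · exact jn_le hs (eqv_le hs h1) (h2 q)
  · exact eqv_le hs h1

theorem step_rel {E E' : ℕ × ℕ → ℕ × ℕ → Prop} {h n i p q : ℕ} (hq : q = 0 ∨ q = 2)
    (hi : i + p ≤ n) (hE : ∀ x y, E x y → x.1 ≤ h ∧ y.1 ≤ h)
    (hE' : ∀ x y, E' x y ↔ E x y ∨ Piece h n i p q x y) (x y : ℕ × ℕ) :
    EqvGen E' x y ↔ topR E h i p (proj h n i p q x) (proj h n i p q y) := by
  have e := topR_equiv E h i p
  have e' := EqvGen.is_equivalence E'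
  have lo : ∀ j, proj h n i p q (h, j) = (h, j) := fun j => proj_low le_rfl
  refine eqv_retract e _ (fun x y g0 => ?_) (fun x => ?_) ?_ x y
  · rcases (hE' x y).1 g0 with g | ⟨g, rfl, rfl⟩ | ⟨g, rfl, rfl⟩ | ⟨j, g, rfl, rfl⟩ |
      ⟨j, g, g', rfl, rfl⟩
    · rw [proj_low (hE x y g).1, proj_low (hE x y g).2]
      unfold topR
      split_ifs
      · exact Or.inl (EqvGen.rel _ _ g)
      · exact EqvGen.rel _ _ g
    · rw [lo, lo, topR, if_pos g]
      exact jn_self (EqvGen.is_equivalence E) _ _
    · have : proj h n i p q (h + 1, i + 1) = proj h n i p q (h + 1, i) := by simp [proj, g]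
      rw [this]; exact e.refl _
    · have : proj h n i p q (h + 1, j) = (h, j) := by simp [proj, g]
      rw [this, lo]; exact e.refl _
    · have : proj h n i p q (h + 1, j - p + q) = (h, j) := by
        simp only [proj, if_true]
        rw [if_neg (by omega), if_neg (by omega), if_pos (by omega)]
        congr 1; omega
      rw [this, lo]; exact e.refl _
  · obtain ⟨l, a⟩ := x
    simp only [proj]
    split_ifs with c1 c2 c3 c4
    · subst c1
      exact e'.symm (EqvGen.rel _ _ ((hE' _ _).2 (Or.inr (Or.inr (Or.inr (Or.inl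
        ⟨a, c2, rfl, rfl⟩))))))
    · subst c1
      rcases (by omega : a = i ∨ (a = i + 1 ∧ q = 2)) with rfl | ⟨rfl, g⟩
      · exact e'.refl _
      · exact e'.symm (EqvGen.rel _ _ ((hE' _ _).2 (Or.inr (Or.inr (Or.inl ⟨g, rfl, rfl⟩)))))
    · subst c1
      refine e'.symm (EqvGen.rel _ _ ((hE' _ _).2 (Or.inr (Or.inr (Or.inr (Or.inr
        ⟨a - q + p, by omega, by omega, rfl, ?_⟩))))))
      congr 1; omega
    · exact e'.refl _
    · exact e'.refl _
  · exact topR_le e' (fun x y g => EqvGen.rel _ _ ((hE' _ _).2 (Or.inl g)))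
      fun g => EqvGen.rel _ _ ((hE' _ _).2 (Or.inr (Or.inl ⟨g, rfl, rfl⟩)))

theorem topR_iso {E : ℕ × ℕ → ℕ × ℕ → Prop} {h i p : ℕ} (hE : ∀ x y, E x y → x.1 ≤ h ∧ y.1 ≤ h) :
    ∀ x y, topR E h i p x y → x = y ∨ (x.1 ≤ h ∧ y.1 ≤ h) := by
  refine topR_le (s := fun x y => x = y ∨ (x.1 ≤ h ∧ y.1 ≤ h)) ⟨fun x => Or.inl rfl, ?_, ?_⟩
    (fun x y g => Or.inr (hE x y g)) fun _ => Or.inr ⟨le_rfl, le_rfl⟩
  · rintro x y (g | g)
    · exact Or.inl g.symm
    · exact Or.inr g.symm
  · rintro x y z (rfl | g) (rfl | g')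
    · exact Or.inl rfl
    · exact Or.inr g'
    · exact Or.inr g
    · exact Or.inr ⟨g.1, g'.2⟩

/-- The update of the relation between strands across a piece. -/
def upd (i p q : ℕ) (r : ℕ → ℕ → Prop) : ℕ → ℕ → Prop :=
  if q = 2 then cupR i (if p = 2 then capR i r else r) else (if p = 2 then capR i r else r)

theorem step_upd {E E' : ℕ × ℕ → ℕ × ℕ → Prop} {h n i p q : ℕ} (hp : p = 0 ∨ p = 2)
    (hq : q = 0 ∨ q = 2) (hi : i + p ≤ n) (hE : ∀ x y, E x y → x.1 ≤ h ∧ y.1 ≤ h)
    (hE' : ∀ x y, E' x y ↔ E x y ∨ Piece h n i p q x y) {r : ℕ → ℕ → Prop}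
    (hr : ∀ a < n, ∀ b < n, r a b ↔ EqvGen E (h, a) (h, b)) :
    ∀ a < n - p + q, ∀ b < n - p + q, upd i p q r a b ↔ EqvGen E' (h + 1, a) (h + 1, b) := by
  have h1 : ∀ a < n - p, ∀ b < n - p, (if p = 2 then capR i r else r) a b ↔
      topR E h i p (h, if a < i then a else a + p) (h, if b < i then b else b + p) := by
    intro a ha b hb
    rcases hp with rfl | rfl
    · simp [topR, hr a ha b hb]
    · have ha' : (if a < i then a else a + 2) < n := by split_ifs <;> omega
      have hb' : (if b < i then b else b + 2) < n := by split_ifs <;> omega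
      simp only [topR, if_true, capR, jn, hr _ ha' _ hb', hr _ ha' i (by omega),
        hr _ ha' (i + 1) (by omega), hr i (by omega) _ hb', hr (i + 1) (by omega) _ hb']
  intro a ha b hb
  rw [step_rel hq hi hE hE']
  rcases hq with rfl | rfl
  · have pr : ∀ a < n - p + 0, proj h n i p 0 (h + 1, a) = (h, if a < i then a else a + p) := by
      intro a ha
      simp only [proj, if_true]
      split_ifs <;> first | rfl | omega
    rw [pr a ha, pr b hb, ← h1 a ha b hb]
    simp [upd]
  · have pr1 : ∀ a, (a = i ∨ a = i + 1) → proj h n i p 2 (h + 1, a) = (h + 1, i) := by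
      rintro a (rfl | rfl) <;> simp [proj]
    have pr2 : ∀ a < n - p + 2, ¬ (a = i ∨ a = i + 1) → proj h n i p 2 (h + 1, a) =
        (h, if (if a < i then a else a - 2) < i then (if a < i then a else a - 2)
          else (if a < i then a else a - 2) + p) := by
      intro a ha g
      simp only [proj, if_true]
      split_ifs <;> first | rfl | omega
    have lt : ∀ a < n - p + 2, ¬ (a = i ∨ a = i + 1) → (if a < i then a else a - 2) < n - p := by
      intro a ha g
      split_ifs <;> omega
    simp only [upd, if_true, cupR]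
    by_cases c1 : a = i ∨ a = i + 1 <;> by_cases c2 : b = i ∨ b = i + 1
    · rw [pr1 a c1, pr1 b c2]
      exact ⟨fun _ => (topR_equiv E h i p).refl _, fun _ => Or.inl ⟨c1, c2⟩⟩
    · rw [pr1 a c1, pr2 b hb c2]
      constructor
      · rintro (g | g)
        · exact absurd g.2 c2
        · omega
      · intro g
        rcases topR_iso hE _ _ g with g | g <;> simp at g
    · rw [pr2 a ha c1, pr1 b c2]
      constructor
      · rintro (g | g)
        · exact absurd g.1 c1
        · omega
      · intro g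
        rcases topR_iso hE _ _ g with g | g <;> simp at g
    · rw [pr2 a ha c1, pr2 b hb c2, ← h1 _ (lt a ha c1) _ (lt b hb c2)]
      constructor
      · rintro (g | g)
        · exact absurd g.1 c1
        · exact g.2.2.2.2
      · intro g
        exact Or.inr ⟨by omega, by omega, by omega, by omega, g⟩

theorem step_ncls {E E' : ℕ × ℕ → ℕ × ℕ → Prop} {h n i p q : ℕ}
    (hq : q = 0 ∨ q = 2) (hi : i + p ≤ n) (hE : ∀ x y, E x y → x.1 ≤ h ∧ y.1 ≤ h)
    (hE' : ∀ x y, E' x y ↔ E x y ∨ Piece h n i p q x y) {P P' : Set (ℕ × ℕ)} (hP : P'.Finite)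
    (h1 : ∀ x ∈ P, x.1 ≤ h) (h2 : ∀ j < n, (h, j) ∈ P)
    (h3 : ∀ x, x ∈ P' ↔ x ∈ P ∨ (x.1 = h + 1 ∧ x.2 < n - p + q)) :
    ncls (EqvGen E') P' + (if p = 2 ∧ ¬ EqvGen E (h, i) (h, i + 1) then 1 else 0) =
      ncls (EqvGen E) P + (if q = 2 then 1 else 0) := by
  have hsub : P ⊆ P' := fun x hx => (h3 x).2 (Or.inl hx)
  have e := EqvGen.is_equivalence E
  have a1 : ncls (topR E h i p) P + (if p = 2 ∧ ¬ EqvGen E (h, i) (h, i + 1) then 1 else 0) =
      ncls (EqvGen E) P := by
    unfold topR
    by_cases c : p = 2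
    · by_cases c' : EqvGen E (h, i) (h, i + 1)
      · simp [c, c', jn_of_rel e c']
      · simp only [c, c', not_false_iff, and_self, if_true]
        exact ncls_jn e (hP.subset hsub) (h2 i (by omega)) (h2 (i + 1) (by omega)) c'
    · simp [c]
  have a2 : ncls (EqvGen E') P' = ncls (topR E h i p) P + (if q = 2 then 1 else 0) := by
    rcases hq with rfl | rfl
    · rw [if_neg (by omega), add_zero]
      refine ncls_retract (topR_equiv E h i p) (EqvGen.is_equivalence E') hP hsub _
        (step_rel (Or.inl rfl) hi hE hE') (fun x hx => proj_low (h1 x hx)) fun x hx => ?_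
      rcases (h3 x).1 hx with g | ⟨g, g'⟩
      · rwa [proj_low (h1 x g)]
      · simp only [proj, g, if_true]
        split_ifs
        · exact h2 _ (by omega)
        · omega
        · exact h2 _ (by omega)
    · rw [if_pos rfl, ← ncls_insert (topR_equiv E h i p) (hP.subset hsub) (h + 1, i)]
      · refine ncls_retract (topR_equiv E h i p) (EqvGen.is_equivalence E') hP ?_ _
          (step_rel (Or.inr rfl) hi hE hE') ?_ fun x hx => ?_
        · rintro x (rfl | hx)
          · exact (h3 _).2 (Or.inr ⟨rfl, by simp only; omega⟩)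
          · exact hsub hx
        · rintro x (rfl | hx)
          · simp [proj]
          · exact proj_low (h1 x hx)
        · rcases (h3 x).1 hx with g | ⟨g, g'⟩
          · rw [proj_low (h1 x g)]; exact Or.inr g
          · simp only [proj, g, if_true]
            split_ifs
            · exact Or.inr (h2 _ (by omega))
            · exact Or.inl rfl
            · exact Or.inr (h2 _ (by omega))
      · intro y hy g
        have := h1 y hy
        rcases topR_iso hE _ _ g with g | g
        · rw [g] at this; simp at this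
        · simp at g
  omega

end Pool.Agent.Lib.MP_7bc610_gt.Ht
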