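import Pool.Agent.Lib.MP_7bc610_gt.Ht.Arcs

/-!
Expansion of the state sum of a twisted diagram over the states of its template.
-/

namespace Pool.Agent.Lib.MP_7bc610_gt.Ht

open Classical Relation LaurentPolynomial

theorem capR_cupR (i : ℕ) (s : ℕ → ℕ → Prop) : capR i (cupR i s) = s := by
  funext a b
  have u : ∀ a, (if a < i then a else a + 2) ≠ i ∧ (if a < i then a else a + 2) ≠ i + 1 ∧
      (if (if a < i then a else a + 2) < i then (if a < i then a else a + 2)
        else (if a < i then a else a + 2) - 2) = a := by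
    intro a
    split_ifs <;> omega
  simp only [capR, cupR, (u a).2.2, (u b).2.2]
  simp [(u a).1, (u a).2.1, (u b).1, (u b).2.1]

theorem capVal_cupR (i : ℕ) (s : ℕ → ℕ → Prop) : capVal i (cupR i s) = loopVal := by
  simp [capVal, cupR]

variable (φ : ℤ[T;T⁻¹] →+* ℂ)

/-- Weight of the vertical smoothing. -/
noncomputable def al (e : Bool) : ℂ := φ (T (if e then 1 else -1))

/-- Weight of the horizontal smoothing. -/
noncomputable def be (e : Bool) : ℂ := φ (T (if e then -1 else 1))

/-- The eigenvalue ratio of a crossing. -/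
noncomputable def xx (e : Bool) : ℂ := 1 + φ loopVal * be φ e ^ 2

theorem al_be (e : Bool) : al φ e * be φ e = 1 := by
  rw [al, be, ← map_mul, ← T_add]
  cases e <;> simp

theorem ev_column (e : Bool) (i : ℕ) (w : Word) : ∀ (m : ℕ) (r : ℕ → ℕ → Prop),
    φ loopVal * φ (ev (List.replicate m (Kind.cr e, i) ++ w) r) =
      al φ e ^ m * (φ loopVal * φ (ev w r) +
        (xx φ e ^ m - 1) * (φ (capVal i r) * φ (ev w (cupR i (capR i r)))))
  | 0, r => by simp
  | m + 1, r => by
    have h1 := ev_column e i w m r
    have h2 := ev_column e i w m (cupR i (capR i r))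
    rw [capR_cupR, capVal_cupR] at h2
    have h3 := al_be φ e
    simp only [List.replicate_succ, List.cons_append, ev, map_add, map_mul]
    change φ loopVal * (al φ e * _ + be φ e * _) = _
    simp only [xx] at *
    linear_combination al φ e * h1 + be φ e * φ (capVal i r) * h2 -
      (al φ e ^ m * be φ e * φ loopVal * φ (capVal i r) * φ (ev w (cupR i (capR i r))) *
        (1 + φ loopVal * be φ e ^ 2) ^ m) * h3

/-- The sign of the crossing at height `l`. -/
def sg (T : Word) (l : ℕ) : Bool :=
  match T[l]? with
  | some (.cr e, _) => e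
  | _ => true

/-- The list of crossing heights in `[h, h + k)`. -/
noncomputable def cl (T : Word) (h k : ℕ) : List ℕ :=
  (List.range' h k).filter fun l => decide (l ∈ crossings T)

/-- The sum over all ways of smoothing the crossings in a list. -/
noncomputable def sumS (T : Word) (d : ℂ) (f g : ℕ → ℂ) : List ℕ → Finset ℕ → ℂ
  | [], R => d ^ circ T R
  | l :: es, R => f l * sumS T d f g es R + g l * sumS T d f g es (insert l R)

theorem sweep {T : Word} (v : Valid 0 T 0) (n : ℕ → ℕ) : ∀ (k h : ℕ), h + k = T.length →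
    ∀ (R : Finset ℕ) (r : ℕ → ℕ → Prop) (m : ℕ) (n' : ℕ → ℕ), (∀ l ∈ R, l < h) →
    (∀ l, n' l = n (l + h)) →
    (∀ a < width 0 T h, ∀ b < width 0 T h, r a b ↔ EqvGen (ArcR T R h) (h, a) (h, b)) →
    2 * ncls (EqvGen (ArcR T R h)) (Pts T h) = 2 * m + width 0 T h →
    φ loopVal ^ (m + (cl T h k).length) * φ (ev (twist (T.drop h) n') r) =
      sumS T (φ loopVal) (fun l => al φ (sg T l) ^ n l * (xx φ (sg T l) ^ n l - 1))
        (fun l => al φ (sg T l) ^ n l * φ loopVal) (cl T h k) R := by
  intro k
  induction k with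
  | zero =>
    intro h hh R r m n' _ _ _ hc
    obtain rfl : h = T.length := hh
    rw [valid_end T 0 0 v] at hc
    have : circ T R = m := by unfold circ con; omega
    simp [cl, sumS, twist, ev, this]
  | succ k ih =>
    intro h hh R r m n' hR hn hr hc
    have hlt : h < T.length := by omega
    obtain ⟨⟨kd, i⟩, hk⟩ : ∃ g, T[h]? = some g := ⟨_, List.getElem?_eq_getElem hlt⟩
    have hd : T.drop h = (kd, i) :: T.drop (h + 1) := by
      rw [List.drop_eq_getElem_cons hlt, (List.getElem?_eq_some_iff.1 hk).2]
    obtain ⟨v1, v2⟩ := valid_at T 0 0 h kd i v hk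
    have hp : kd.inp = 0 ∨ kd.inp = 2 := by cases kd <;> simp [Kind.inp]
    have hq : kd.out = 0 ∨ kd.out = 2 := by cases kd <;> simp [Kind.out]
    have hn' : ∀ l, (fun l => n' (l + 1)) l = n (l + (h + 1)) := fun l => by
      simp only [hn]; congr 1; omega
    have hnot : h ∉ R := fun g => lt_irrefl _ (hR h g)
    have P2 : ∀ j < width 0 T h, (h, j) ∈ Pts T h := fun j hj => ⟨le_rfl, hj⟩
    have hor := ih (h + 1) (by omega) R (upd i kd.inp kd.out r)
      (m + if kd.inp = 2 ∧ r i (i + 1) then 1 else 0) _ (fun l hl => (hR l hl).trans (by omega)) hn'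
      (by rw [v2]; exact step_upd hp hq v1 arcR_low (arcR_hor hk hnot) hr)
      (by
        have := step_ncls hq v1 arcR_low (arcR_hor hk hnot) (pts_finite T (h + 1))
          (P := Pts T h) (fun x hx => hx.1) P2 (by rw [← v2]; exact pts_succ T h)
        rw [v2]
        by_cases c : kd.inp = 2
        · rw [← hr i (by omega) (i + 1) (by omega)] at this
          by_cases c' : r i (i + 1) <;> simp only [c, c', true_and, not_true, not_false_iff,
            if_true, if_false] at this ⊢ <;> split_ifs at this <;> omega
        · simp only [c, false_and, if_false] at this ⊢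
          split_ifs at this <;> omega)
    have cv : φ (capVal i r) = φ loopVal ^ (if r i (i + 1) then 1 else 0) := by
      unfold capVal; split_ifs <;> simp
    rw [hd]
    cases kd with
    | cup =>
      have : cl T h (k + 1) = cl T (h + 1) k := by
        simp [cl, List.range'_succ, crossings, hk]
      rw [this, ← hor]
      simp [twist, ev, upd, Kind.inp, Kind.out]
    | cap =>
      have : cl T h (k + 1) = cl T (h + 1) k := by
        simp [cl, List.range'_succ, crossings, hk]
      rw [this, ← hor]
      have : upd i Kind.cap.inp Kind.cap.out r = capR i r := by simp [upd, Kind.inp, Kind.out]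
      rw [this]
      simp only [twist, ev, Kind.inp, map_mul, cv, true_and]
      ring
    | cr e =>
      have : cl T h (k + 1) = h :: cl T (h + 1) k := by
        simp [cl, List.range'_succ, crossings, hk]
      simp only [Kind.inp, Kind.out] at v1 v2
      have v3 : width 0 T (h + 1) = width 0 T h - 0 + 0 := by omega
      have ver := ih (h + 1) (by omega) (insert h R) r m _
        (fun l hl => by
          rcases Finset.mem_insert.1 hl with rfl | hl
          · omega
          · exact (hR l hl).trans (by omega)) hn'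
        (by
          rw [v3]
          exact step_upd (n := width 0 T h) (Or.inl rfl) (Or.inl rfl) le_rfl arcR_low (arcR_ver hk v1) hr)
        (by
          have := step_ncls (n := width 0 T h) (Or.inl rfl) le_rfl arcR_low (arcR_ver (R := R) hk v1)
            (pts_finite T (h + 1)) (P := Pts T h) (fun x hx => hx.1) P2
            (by rw [← v3]; exact pts_succ T h)
          simp at this
          omega)
      have hs : sg T h = e := by simp [sg, hk]
      have col := ev_column φ e i (twist (T.drop (h + 1)) fun l => n' (l + 1)) (n' 0) r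
      rw [this, sumS, ← hor, ← ver, hs]
      simp only [twist, upd, Kind.inp, Kind.out, true_and, if_true, List.length_cons]
      rw [cv, hn 0, zero_add] at col
      rw [hn 0, zero_add]
      linear_combination φ loopVal ^ (m + (cl T (h + 1) k).length) * col

theorem expand {T : Word} (v : Valid 0 T 0) (n : ℕ → ℕ) :
    φ loopVal ^ (cl T 0 T.length).length * φ (stateSum (twist T n)) =
      sumS T (φ loopVal) (fun l => al φ (sg T l) ^ n l * (xx φ (sg T l) ^ n l - 1))
        (fun l => al φ (sg T l) ^ n l * φ loopVal) (cl T 0 T.length) ∅ := by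
  have := sweep φ v n T.length 0 (by simp) ∅ Eq 0 n (by simp) (by simp) (by simp [width_zero])
    (by simp [width_zero, pts_zero, ncls])
  simpa [stateSum] using this

/-- The position of the piece at height `l`. -/
def ps (T : Word) (l : ℕ) : ℕ :=
  match T[l]? with
  | some (_, i) => i
  | none => 0

/-- The edge of the crossing at height `l`. -/
def edge (T : Word) (w : ℕ → ℂ) (l : ℕ) : Ed (ℕ × ℕ) := ⟨(l, ps T l), (l + 1, ps T l), w l, 1⟩

theorem lowest {T : Word} (v : Valid 0 T 0) (d : ℂ) (hd : ‖d‖ ≤ 1) (f g w : ℕ → ℂ) (M : ℝ) :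
    ∀ (es : List ℕ) (R : Finset ℕ), es.Nodup →
    (∀ l ∈ es, l ∈ crossings T ∧ l ∉ R ∧ g l = f l * (d * w l) ∧ ‖w l‖ ≤ M) →
    (∀ l ∈ R, l ∈ crossings T) →
    ∃ B : ℂ, sumS T d f g es R =
        (es.map f).prod * (d ^ circ T R * (Fo (es.map (edge T w)) (con T R) + d * B)) ∧
      ‖Fo (es.map (edge T w)) (con T R)‖ + ‖B‖ ≤ (1 + M) ^ es.length
  | [], R, _, _, _ => ⟨0, by simp [sumS, Fo], by simp [Fo]⟩
  | l :: es, R, hnd, h, hR => by
    obtain ⟨⟨e, i, hl⟩, hn, hg, hM⟩ := h l (by simp)
    rw [List.nodup_cons] at hnd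
    obtain ⟨B1, p1, q1⟩ := lowest v d hd f g w M es R hnd.2 (fun l hl => h l (by simp [hl])) hR
    obtain ⟨B2, p2, q2⟩ := lowest v d hd f g w M es (insert l R) hnd.2
      (fun l' hl' => by
        obtain ⟨a, b, c⟩ := h l' (by simp [hl'])
        refine ⟨a, ?_, c⟩
        rw [Finset.mem_insert, not_or]
        exact ⟨fun q => hnd.1 (q ▸ hl'), b⟩)
      (fun l' hl' => by
        rcases Finset.mem_insert.1 hl' with rfl | q
        · exact ⟨e, i, hl⟩
        · exact hR l' q)
    have hp : ps T l = i := by simp [ps, hl]
    have hM0 : 0 ≤ M := (norm_nonneg _).trans hM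
    have he : edge T w l = ⟨(l, i), (l + 1, i), w l, 1⟩ := by simp [edge, hp]
    simp only [sumS, List.map_cons, List.prod_cons, Fo, he, p1, p2, hg, List.length_cons]
    have fin : ∀ s : ℝ, s ≤ (‖Fo (es.map (edge T w)) (con T R)‖ + ‖B1‖) +
        M * (‖Fo (es.map (edge T w)) (con T (insert l R))‖ + ‖B2‖) →
        s ≤ (1 + M) ^ (es.length + 1) := fun s hs => by
      rw [pow_succ]
      nlinarith [mul_le_mul_of_nonneg_left q2 hM0]
    by_cases c : con T R (l, i) (l + 1, i)
    · obtain ⟨j, hj⟩ := Nat.exists_eq_add_of_le (circ_same hl hn c)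
      refine ⟨B1 + w l * d ^ j * (Fo (es.map (edge T w)) (con T (insert l R)) + d * B2), ?_,
        fin _ ?_⟩
      · rw [if_pos c, hj]; ring
      · rw [if_pos c, add_zero, add_assoc]
        refine add_le_add le_rfl ((norm_add_le _ _).trans (add_le_add le_rfl ?_))
        rw [norm_mul, norm_mul]
        have a1 : ‖d ^ j‖ ≤ 1 := by rw [norm_pow]; exact pow_le_one₀ (norm_nonneg _) hd
        have a2 : ‖Fo (es.map (edge T w)) (con T (insert l R)) + d * B2‖ ≤
            ‖Fo (es.map (edge T w)) (con T (insert l R))‖ + ‖B2‖ := by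
          refine (norm_add_le _ _).trans (add_le_add le_rfl ?_)
          rw [norm_mul]
          exact mul_le_of_le_one_left (norm_nonneg _) hd
        exact mul_le_mul ((mul_le_of_le_one_right (norm_nonneg _) a1).trans hM) a2
          (norm_nonneg _) hM0
    · refine ⟨B1 + w l * B2, ?_, fin _ ?_⟩
      · rw [if_neg c, ← circ_diff v hR hl hn c, ← con_diff v hR hl hn c]; ring
      · rw [if_neg c, ← con_diff v hR hl hn c]
        have a1 := norm_add_le (Fo (es.map (edge T w)) (con T R))
          (w l * Fo (es.map (edge T w)) (con T (insert l R)))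
        have a2 := norm_add_le B1 (w l * B2)
        rw [norm_mul] at a1 a2
        have a3 := mul_le_mul_of_nonneg_right hM
          (norm_nonneg (Fo (es.map (edge T w)) (con T (insert l R))))
        have a4 := mul_le_mul_of_nonneg_right hM (norm_nonneg B2)
        linarith

end Pool.Agent.Lib.MP_7bc610_gt.Ht
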